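import Pool.Agent.H32.Dense.Iface
import Pool.Agent.H53.Kak.WRec

/-!
# From the restricted form to the inequality without loss
-/

set_option autoImplicit false

open MeasureTheory ENNReal
open scoped RealInnerProductSpace

namespace Pool.Agent.H53.Kak

variable {d : ℕ}

/-- weak-type bounds with small losses at `q₀` give strong-type bounds without loss above `q₀` -/
theorem lossless_of_WK (hd : 1 ≤ d) {q₀ : ℝ} (hq₀ : 1 + 1 / (d : ℝ) ≤ q₀)
    (h : ∀ ε : ℝ, 0 < ε → ∃ A : ℝ, 0 < A ∧ ∀ δ : ℝ, 0 < δ → δ < 1 → WK d q₀ δ (A * δ ^ (-ε)))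
    {q : ℝ} (hq : q₀ < q) : ∃ C : ℝ, Loss d q 0 C := by
  have hd0 : (0 : ℝ) < d := by exact_mod_cast hd
  have hinv : 0 < 1 / (d : ℝ) := by positivity
  have hq1 : 1 < q₀ := by linarith only [hq₀, hinv]
  set q1 : ℝ := (q₀ + q) / 2 with hq1def
  have hq01 : q₀ < q1 := by rw [hq1def]; linarith only [hq]
  have hq1q : q1 < q := by rw [hq1def]; linarith only [hq]
  have hq10 : 0 < q1 := by linarith only [hq₀, hinv, hq01]
  refine removal hd (hq₀.trans hq01.le) ?_ hq1q
  intro ε hε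
  have hε1 : 0 < ε * q1 := by positivity
  obtain ⟨A, hA0, hA⟩ := h (ε * q1) hε1
  set K : ℝ := 2 ^ q₀ / (1 - (1 / 2) ^ (q1 - q₀)) with hK
  have hK0 : 0 < K := by
    have : ((1 : ℝ) / 2) ^ (q1 - q₀) < 1 :=
      Real.rpow_lt_one (by norm_num) (by norm_num) (by linarith only [hq01])
    rw [hK]
    apply div_pos (by positivity); linarith only [this]
  refine ⟨(A * K) ^ (1 / q1), ?_⟩
  intro δ hδ hδ1 ι S c e hF
  rcases Nat.eq_zero_or_pos S.card with hS0 | hS
  · have hS1 : S = ∅ := Finset.card_eq_zero.mp hS0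
    subst hS1
    have : (fun x => (mu δ c e (∅ : Finset ι) x : ℝ)) = 0 := by
      funext x; simp [mu]
    rw [this, eLpNorm_zero]
    exact bot_le
  have hNr : (0 : ℝ) < S.card := by exact_mod_cast hS
  have hsw := strong_of_weak (q' := q₀) (q1 := q1) (W := A * δ ^ (-(ε * q1))) (by linarith only [hq₀, hinv, hδ, hδ1]) hq01
    (by positivity) hδ hd S c e hS (by
      intro κ hκ _
      refine (hA δ hδ hδ1 ι S c e hF (κ * S.card) (by positivity)).trans (le_of_eq ?_)
      congr 1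
      rw [Real.mul_rpow hκ.le hNr.le]
      have h1 : (S.card : ℝ) ^ (-q₀) * (S.card : ℝ) ^ (q₀ - 1 / (d : ℝ)) =
          (S.card : ℝ) ^ (-(1 / (d : ℝ))) := by
        rw [← Real.rpow_add hNr]; congr 1; ring
      rw [← h1]; ring)
  refine hsw.trans (le_of_eq ?_)
  congr 1
  have h2 : A * δ ^ (-(ε * q1)) * 2 ^ q₀ / (1 - (1 / 2) ^ (q1 - q₀)) =
      (A * K) * δ ^ (-(ε * q1)) := by rw [hK]; ring
  rw [h2, Real.mul_rpow (by positivity) (by positivity), ← Real.rpow_mul hδ.le]
  have h3 : -(ε * q1) * (1 / q1) = -ε := by field_simp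
  rw [h3]

lemma solve_V (hd : 1 ≤ d) {a V lam δ N c η : ℝ} (ha : 1 ≤ a) (hV : 0 < V) (hlam : 0 < lam)
    (hδ : 0 < δ) (hN : 0 < N) (hc : 0 < c) (hη : 0 < η)
    (h : c * η * ((lam * V / (2 ^ d * δ ^ d * N)) ^ (1 + d / a) * δ ^ d * N ^ (1 / a)) ≤ V) :
    V ≤ ((2 : ℝ) ^ (d * (1 + d / a)) / c) ^ (a / d) * η ^ (-(a / d)) *
      (lam ^ (-(1 + a / d)) * (δ ^ d * N ^ (1 + a / d - 1 / (d : ℝ)))) := by
  have hd0 : (0 : ℝ) < d := by exact_mod_cast hd
  have ha0 : 0 < a := by linarith only [ha]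
  have hs : 0 < (d : ℝ) / a := by positivity
  have hδd : δ ^ d = δ ^ (d : ℝ) := (Real.rpow_natCast δ d).symm
  have h2d : (2 : ℝ) ^ d = 2 ^ (d : ℝ) := (Real.rpow_natCast 2 d).symm
  have e1 : (lam * V / (2 ^ d * δ ^ d * N)) ^ (1 + d / a) =
      lam ^ (1 + d / a) * (V * V ^ ((d : ℝ) / a)) * (2 ^ (-(d * (1 + d / a)) : ℝ) *
        δ ^ (-(d * (1 + d / a)) : ℝ) * N ^ (-(1 + d / a) : ℝ)) := by
    have hVV : V * V ^ ((d : ℝ) / a) = V ^ (1 + d / a) := by
      rw [Real.rpow_add hV, Real.rpow_one]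
    have h3 : (2 : ℝ) ^ (-(d * (1 + d / a)) : ℝ) * δ ^ (-(d * (1 + d / a)) : ℝ) *
        N ^ (-(1 + d / a) : ℝ) = ((2 ^ (d : ℝ) * δ ^ (d : ℝ) * N) ^ (1 + d / a))⁻¹ := by
      rw [Real.mul_rpow (by positivity) hN.le, Real.mul_rpow (by positivity) (by positivity),
        ← Real.rpow_mul (by norm_num), ← Real.rpow_mul hδ.le, mul_inv, mul_inv,
        Real.rpow_neg (by norm_num), Real.rpow_neg hδ.le, Real.rpow_neg hN.le]
    rw [hVV, h3, hδd, h2d, Real.div_rpow (by positivity) (by positivity),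
      Real.mul_rpow hlam.le hV.le]
    rfl
  set X : ℝ := (2 : ℝ) ^ (d * (1 + d / a)) / c * η⁻¹ * (lam ^ (-(1 + d / a)) *
    (δ ^ ((d : ℝ) * (d / a)) * N ^ (1 + d / a - 1 / a))) with hX
  have hX0 : 0 < X := by positivity
  have hVX : V ^ ((d : ℝ) / a) ≤ X := by
    have h3 : (c * η * lam ^ (1 + d / a) * 2 ^ (-(d * (1 + d / a)) : ℝ) *
        (δ ^ (-(d * (1 + d / a)) : ℝ) * δ ^ (d : ℝ)) * (N ^ (-(1 + d / a) : ℝ) * N ^ (1 / a))) *
        V ^ ((d : ℝ) / a) * V ≤ V := by
      rw [e1, hδd] at h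
      calc _ = c * η * (lam ^ (1 + d / a) * (V * V ^ ((d : ℝ) / a)) *
            (2 ^ (-(d * (1 + d / a)) : ℝ) * δ ^ (-(d * (1 + d / a)) : ℝ) *
            N ^ (-(1 + d / a) : ℝ)) * δ ^ (d : ℝ) * N ^ (1 / a)) := by ring
        _ ≤ V := h
    have h4 : (c * η * lam ^ (1 + d / a) * 2 ^ (-(d * (1 + d / a)) : ℝ) *
        (δ ^ (-(d * (1 + d / a)) : ℝ) * δ ^ (d : ℝ)) * (N ^ (-(1 + d / a) : ℝ) * N ^ (1 / a))) *
        V ^ ((d : ℝ) / a) ≤ 1 := by
      by_contra hcon
      push Not at hcon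
      nlinarith only [h3, hV, hcon]
    have h5 : (c * η * lam ^ (1 + d / a) * 2 ^ (-(d * (1 + d / a)) : ℝ) *
        (δ ^ (-(d * (1 + d / a)) : ℝ) * δ ^ (d : ℝ)) * (N ^ (-(1 + d / a) : ℝ) * N ^ (1 / a))) *
        X = 1 := by
      have i1 : (2 : ℝ) ^ (-(d * (1 + d / a)) : ℝ) * 2 ^ (d * (1 + d / a) : ℝ) = 1 := by
        rw [← Real.rpow_add (by norm_num)]; simp
      have i2 : lam ^ (1 + d / a) * lam ^ (-(1 + d / a)) = 1 := by
        rw [← Real.rpow_add hlam]; simp
      have i3 : δ ^ (-(d * (1 + d / a)) : ℝ) * δ ^ (d : ℝ) * δ ^ ((d : ℝ) * (d / a)) = 1 := by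
        rw [← Real.rpow_add hδ, ← Real.rpow_add hδ]
        have : -(d * (1 + d / a)) + (d : ℝ) + d * (d / a) = 0 := by ring
        rw [this, Real.rpow_zero]
      have i4 : N ^ (-(1 + d / a) : ℝ) * N ^ (1 / a) * N ^ (1 + d / a - 1 / a) = 1 := by
        rw [← Real.rpow_add hN, ← Real.rpow_add hN]
        have : -(1 + d / a) + 1 / a + (1 + d / a - 1 / a) = 0 := by ring
        rw [this, Real.rpow_zero]
      have i5 : c * η * (1 / c * η⁻¹) = 1 := by field_simp
      calc _ = (c * η * (1 / c * η⁻¹)) * (lam ^ (1 + d / a) * lam ^ (-(1 + d / a))) *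
            ((2 : ℝ) ^ (-(d * (1 + d / a)) : ℝ) * 2 ^ (d * (1 + d / a) : ℝ)) *
            (δ ^ (-(d * (1 + d / a)) : ℝ) * δ ^ (d : ℝ) * δ ^ ((d : ℝ) * (d / a))) *
            (N ^ (-(1 + d / a) : ℝ) * N ^ (1 / a) * N ^ (1 + d / a - 1 / a)) := by
            rw [hX]; ring
        _ = 1 := by rw [i1, i2, i3, i4, i5]; ring
    have h6 : 0 < (c * η * lam ^ (1 + d / a) * 2 ^ (-(d * (1 + d / a)) : ℝ) *
        (δ ^ (-(d * (1 + d / a)) : ℝ) * δ ^ (d : ℝ)) * (N ^ (-(1 + d / a) : ℝ) * N ^ (1 / a))) := by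
      positivity
    exact le_of_mul_le_mul_left (h4.trans_eq h5.symm) h6
  exact by
   have hV2 : V = (V ^ ((d : ℝ) / a)) ^ (a / d) := by
     rw [← Real.rpow_mul hV.le]
     have : (d : ℝ) / a * (a / d) = 1 := by field_simp
     rw [this, Real.rpow_one]
   calc V = (V ^ ((d : ℝ) / a)) ^ (a / d) := hV2
     _ ≤ X ^ (a / d) := by gcongr
     _ = _ := by
         rw [hX, Real.mul_rpow (by positivity) (by positivity),
           Real.mul_rpow (by positivity) (by positivity),
           Real.mul_rpow (by positivity) (by positivity),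
           Real.mul_rpow (by positivity) (by positivity), ← Real.rpow_mul hlam.le,
           ← Real.rpow_mul hδ.le, ← Real.rpow_mul hN.le, Real.inv_rpow hη.le, ← Real.rpow_neg hη.le,
           hδd]
         have j1 : -(1 + d / a) * (a / d) = -(1 + a / d) := by field_simp; ring
         have j2 : (d : ℝ) * (d / a) * (a / d) = d := by field_simp
         have j3 : (1 + d / a - 1 / a) * (a / d) = 1 + a / d - 1 / (d : ℝ) := by field_simp; ring
         rw [j1, j2, j3]

/-- the lower bound for a general set from the restricted form -/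
lemma lower_of_restricted (hd : 1 ≤ d) {a : ℝ} (ha : 1 ≤ a)
    (h : Pool.Agent.H32.Dense.Restricted d a) {ε : ℝ} (hε : 0 < ε) :
    ∃ c : ℝ, 0 < c ∧ ∀ δ : ℝ, 0 < δ → δ < 1 → ∀ (ι : Type) (S : Finset ι) (c₀ e : ι → E d),
      Fam δ e S → 0 < S.card → ∀ X : Set (E d), MeasurableSet X → ∀ V lb : ℝ, 0 < V →
      volume X = ENNReal.ofReal V → 0 < lb →
      ENNReal.ofReal (lb * (2 ^ d * δ ^ d * S.card)) ≤ ∑ j ∈ S, volume (X ∩ tube δ (c₀ j) (e j)) →
      c * δ ^ ε * (lb ^ (1 + d / a) * δ ^ d * (S.card : ℝ) ^ (1 / a)) ≤ V := by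
  classical
  have hd0 : (0 : ℝ) < d := by exact_mod_cast hd
  have ha0 : 0 < a := by linarith only [ha]
  have hG := CG_pos d
  have hG1 := one_le_CG d
  set p : ℝ := 1 + d / a with hp
  have hp1 : 1 ≤ p := by
    have : 0 < (d : ℝ) / a := by positivity
    rw [hp]; linarith only [this]
  have hp0 : 0 < p := by linarith only [hp1]
  have hε1 : 0 < ε / (1 + p) := by positivity
  set ε1 : ℝ := ε / (1 + p) with hε1def
  obtain ⟨c, hc, hr⟩ := h ε1 hε1
  set Ck : ℝ := 1 + 1 + 2 / ε1 with hCk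
  have hCk0 : 0 < Ck := by positivity
  set c2 : ℝ := min ((CG d * 3 ^ d)⁻¹) (c * (4 * Ck) ^ (-p)) with hc2
  have hc20 : 0 < c2 := by rw [hc2]; positivity
  refine ⟨c2, hc20, ?_⟩
  intro δ hδ hδ1 ι S c₀ e hF hS X hX V lb hV hVX hlb hmass
  have hNr : (0 : ℝ) < S.card := by exact_mod_cast hS
  set N : ℝ := (S.card : ℝ) with hN
  have hδε : δ ^ ε ≤ 1 := Real.rpow_le_one hδ.le hδ1.le hε.le
  -- the densities
  obtain ⟨w, hw0, hwE⟩ : ∃ w : ι → ℝ, (∀ j, 0 ≤ w j) ∧ ∀ j, volume (X ∩ tube δ (c₀ j) (e j)) =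
      ENNReal.ofReal (w j * (2 ^ d * δ ^ d)) := by
    refine ⟨fun j => (volume (X ∩ tube δ (c₀ j) (e j))).toReal / (2 ^ d * δ ^ d),
      fun j => by positivity, ?_⟩
    intro j
    have hfin : volume (X ∩ tube δ (c₀ j) (e j)) ≠ ∞ := by
      refine ne_top_of_le_ne_top ?_ (measure_mono Set.inter_subset_left)
      rw [hVX]; exact ENNReal.ofReal_ne_top
    rw [div_mul_cancel₀ _ (by positivity), ENNReal.ofReal_toReal hfin]
  exact by
   have hw1 : ∀ j ∈ S, w j ≤ 1 := by
     intro j hj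
     have h1 : volume (X ∩ tube δ (c₀ j) (e j)) ≤ ENNReal.ofReal ((2 * δ) ^ d) :=
       (measure_mono Set.inter_subset_right).trans
         (volume_tube_le δ hδ.le (c₀ j) (e j) (hF.unit j hj))
     rw [hwE, ENNReal.ofReal_le_ofReal_iff (by positivity), mul_pow] at h1
     exact le_of_mul_le_mul_right (by rw [one_mul]; exact h1) (by positivity : (0:ℝ) < 2 ^ d * δ ^ d)
   have hwV : ∀ j, w j * (2 ^ d * δ ^ d) ≤ V := by
     intro j
     have h1 : volume (X ∩ tube δ (c₀ j) (e j)) ≤ volume X := measure_mono Set.inter_subset_left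
     rw [hwE, hVX, ENNReal.ofReal_le_ofReal_iff hV.le] at h1
     exact h1
   have hsum : lb * N ≤ ∑ j ∈ S, w j := by
     rw [Finset.sum_congr rfl (fun j _ => hwE j), ← ENNReal.ofReal_sum_of_nonneg
       (fun j _ => mul_nonneg (hw0 j) (by positivity)), ENNReal.ofReal_le_ofReal_iff
       (Finset.sum_nonneg (fun j _ => mul_nonneg (hw0 j) (by positivity))), ← Finset.sum_mul] at hmass
     have : (lb * N) * (2 ^ d * δ ^ d) ≤ (∑ j ∈ S, w j) * (2 ^ d * δ ^ d) := by
       calc (lb * N) * (2 ^ d * δ ^ d) = lb * (2 ^ d * δ ^ d * N) := by ring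
         _ ≤ _ := hmass
     exact le_of_mul_le_mul_right this (by positivity)
   have hVlow : lb * δ ^ d ≤ V := by
     obtain ⟨j, hj, hj2⟩ : ∃ j ∈ S, lb ≤ w j := by
       by_contra hcon
       push Not at hcon
       have : ∑ j ∈ S, w j < ∑ _j ∈ S, lb :=
         Finset.sum_lt_sum_of_nonempty (Finset.card_pos.mp hS) (fun j hj => hcon j hj)
       rw [Finset.sum_const, nsmul_eq_mul] at this
       linarith only [hsum, this]
     calc lb * δ ^ d ≤ w j * δ ^ d := by gcongr
       _ ≤ w j * (2 ^ d * δ ^ d) := by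
           have : (1 : ℝ) ≤ 2 ^ d := one_le_pow₀ (by norm_num)
           have h3 : δ ^ d ≤ 2 ^ d * δ ^ d := by
             have : 0 < δ ^ d := by positivity
             nlinarith
           exact mul_le_mul_of_nonneg_left h3 (hw0 j)
       _ ≤ V := hwV j
   exact by
    have hlb1 : lb ≤ 1 := by
      have h1 : ∑ j ∈ S, w j ≤ ∑ _j ∈ S, (1 : ℝ) := Finset.sum_le_sum hw1
      rw [Finset.sum_const, nsmul_eq_mul, mul_one] at h1
      have : lb * N ≤ 1 * N := by linarith only [hsum, h1]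
      exact le_of_mul_le_mul_right this hNr
    have hcard := card_le_all hδ hδ1 hF
    rcases le_or_gt lb δ with hcase | hcase
    · -- small density
      have h1 : lb ^ ((d : ℝ) / a) * N ^ (1 / a) ≤ CG d * 3 ^ d := by
        have h2 : lb ^ ((d : ℝ) / a) = (lb ^ d) ^ (1 / a) := by
          rw [← Real.rpow_natCast lb d, ← Real.rpow_mul hlb.le]; congr 1; ring
        rw [h2, ← Real.mul_rpow (by positivity) hNr.le]
        have h3 : lb ^ d * N ≤ CG d * 3 ^ d := by
          calc lb ^ d * N ≤ δ ^ d * (CG d * 3 ^ d * (δ ^ d)⁻¹) := by gcongr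
            _ = CG d * 3 ^ d := by field_simp
        have h4 : (1 : ℝ) ≤ CG d * 3 ^ d := by
          have : (1 : ℝ) ≤ 3 ^ d := one_le_pow₀ (by norm_num)
          nlinarith only [hG1, hG, this]
        calc (lb ^ d * N) ^ (1 / a) ≤ (CG d * 3 ^ d) ^ (1 / a) := by gcongr
          _ ≤ (CG d * 3 ^ d) ^ (1 : ℝ) := by
              apply Real.rpow_le_rpow_of_exponent_le h4
              rw [div_le_one ha0]; exact ha
          _ = _ := Real.rpow_one _
      have h5 : lb ^ p = lb * lb ^ ((d : ℝ) / a) := by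
        rw [hp, Real.rpow_add hlb, Real.rpow_one]
      calc c2 * δ ^ ε * (lb ^ p * δ ^ d * N ^ (1 / a))
          ≤ (CG d * 3 ^ d)⁻¹ * 1 * (lb ^ p * δ ^ d * N ^ (1 / a)) := by
            gcongr
            exact min_le_left _ _
        _ = (lb * δ ^ d) * ((CG d * 3 ^ d)⁻¹ * (lb ^ ((d : ℝ) / a) * N ^ (1 / a))) := by
            rw [h5]; ring
        _ ≤ (lb * δ ^ d) * ((CG d * 3 ^ d)⁻¹ * (CG d * 3 ^ d)) := by gcongr
        _ = lb * δ ^ d := by rw [inv_mul_cancel₀ (by positivity), mul_one]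
        _ ≤ V := hVlow
    · -- large density
      obtain ⟨K, hK1, hK2⟩ := num_levels hδ hδ1 hε1 1
      have hKpos : 0 < K := by
        rcases Nat.eq_zero_or_pos K with h0 | h0
        · exfalso
          rw [h0, pow_zero, pow_one] at hK1
          have : 1 ≤ δ⁻¹ := (one_le_inv₀ hδ).mpr hδ1.le
          linarith only [hδ, hδ1, hK1, this]
        · exact h0
      have hKr : (0 : ℝ) < K := by exact_mod_cast hKpos
      have hK3 : (1 / 2 : ℝ) ^ K ≤ lb / 2 := by
        rw [div_pow, one_pow, div_le_iff₀ (by positivity)]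
        have h1 : 2 / lb < 2 ^ K := by
          calc 2 / lb ≤ 2 ^ 1 * δ⁻¹ := by
                rw [div_eq_mul_inv, pow_one]
                gcongr
            _ < 2 ^ K := hK1
        rw [div_lt_iff₀ hlb] at h1
        linarith only [h1]
      set Sl : ℕ → Finset ι := fun s => S.filter (fun j => (1 / 2 : ℝ) ^ (s + 1) < w j ∧
        w j ≤ (1 / 2) ^ s) with hSl
      have hsum2 : lb * N / 2 ≤ ∑ s ∈ Finset.range K, ∑ j ∈ Sl s, w j := by
        have h1 : ∑ j ∈ S, w j ≤ ∑ s ∈ Finset.range K, ∑ j ∈ Sl s, w j + lb / 2 * N := by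
          have h2 : ∀ j ∈ S, w j ≤ ∑ s ∈ Finset.range K, (if (1 / 2 : ℝ) ^ (s + 1) < w j ∧
              w j ≤ (1 / 2) ^ s then w j else 0) + lb / 2 := by
            intro j hj
            rcases le_or_gt (w j) (lb / 2) with h3 | h3
            · have : 0 ≤ ∑ s ∈ Finset.range K, (if (1 / 2 : ℝ) ^ (s + 1) < w j ∧
                w j ≤ (1 / 2) ^ s then w j else 0) := by
                apply Finset.sum_nonneg
                intro s _
                split_ifs; exacts [hw0 j, le_rfl]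
              linarith only [h3, this]
            · have hwj : 0 < w j := lt_trans (by positivity) h3
              obtain ⟨s, hs1, hs2⟩ := exists_nat_pow_near_of_lt_one hwj (hw1 j hj)
                (by norm_num : (0 : ℝ) < 1 / 2) (by norm_num)
              have hsK : s < K := by
                by_contra hcon
                push Not at hcon
                have : (1 / 2 : ℝ) ^ s ≤ (1 / 2) ^ K :=
                  pow_le_pow_of_le_one (by norm_num) (by norm_num) hcon
                linarith only [hK3, h3, hs2, this]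
              have h4 : w j ≤ ∑ s ∈ Finset.range K, (if (1 / 2 : ℝ) ^ (s + 1) < w j ∧
                  w j ≤ (1 / 2) ^ s then w j else 0) := by
                refine le_trans ?_ (Finset.single_le_sum (f := fun s => if (1 / 2 : ℝ) ^ (s + 1) < w j ∧
                  w j ≤ (1 / 2) ^ s then w j else 0) (fun s _ => by
                    split_ifs; exacts [hw0 j, le_rfl]) (Finset.mem_range.mpr hsK))
                rw [if_pos ⟨hs1, hs2⟩]
              have : 0 ≤ lb / 2 := by positivity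
              linarith only [hδ, hcase, h4]
          calc ∑ j ∈ S, w j ≤ ∑ j ∈ S, (∑ s ∈ Finset.range K, (if (1 / 2 : ℝ) ^ (s + 1) < w j ∧
                w j ≤ (1 / 2) ^ s then w j else 0) + lb / 2) := Finset.sum_le_sum h2
            _ = _ := by
                rw [Finset.sum_add_distrib, Finset.sum_comm, Finset.sum_const, nsmul_eq_mul]
                congr 1
                · apply Finset.sum_congr rfl
                  intro s _
                  rw [hSl, Finset.sum_filter]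
                · rw [hN]; ring
        linarith only [hsum, h1]
      obtain ⟨s, hs, hs2⟩ : ∃ s ∈ Finset.range K, lb * N / 2 / K ≤ ∑ j ∈ Sl s, w j := by
        by_contra hcon
        push Not at hcon
        have h1 : ∑ s ∈ Finset.range K, ∑ j ∈ Sl s, w j < ∑ _s ∈ Finset.range K, lb * N / 2 / K :=
          Finset.sum_lt_sum_of_nonempty ⟨0, Finset.mem_range.mpr hKpos⟩ hcon
        rw [Finset.sum_const, Finset.card_range, nsmul_eq_mul, mul_div_cancel₀ _ hKr.ne'] at h1
        linarith only [hsum2, h1]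
      set x : ℝ := (1 / 2) ^ s with hx
      have hx0 : 0 < x := by positivity
      have hx1 : x ≤ 1 := pow_le_one₀ (by norm_num) (by norm_num)
      set Ns : ℝ := ((Sl s).card : ℝ) with hNs
      have hxN : lb * N / 2 / K ≤ x * Ns := by
        refine hs2.trans ?_
        calc ∑ j ∈ Sl s, w j ≤ ∑ _j ∈ Sl s, x :=
              Finset.sum_le_sum (fun j hj => (Finset.mem_filter.1 hj).2.2)
          _ = x * Ns := by rw [Finset.sum_const, nsmul_eq_mul, mul_comm]
      have hNs0 : 0 < Ns := by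
        have : 0 < x * Ns := lt_of_lt_of_le (by positivity) hxN
        exact (pos_iff_pos_of_mul_pos this).mp hx0
      have hNsN : Ns ≤ N := by
        rw [hNs, hN]; exact_mod_cast Finset.card_le_card (Finset.filter_subset _ _)
      have hres := hr δ hδ hδ1 ι (Sl s) c₀ e (hF.mono (Finset.filter_subset _ _)) X hX (x / 2)
        (by positivity) (by linarith only [hδ, hδ1, hx1]) (by
          intro j hj
          rw [hwE]
          apply ENNReal.ofReal_le_ofReal
          have h1 := (Finset.mem_filter.1 hj).2.1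
          have h2 : x / 2 < w j := by
            rw [hx]
            calc (1 / 2 : ℝ) ^ s / 2 = (1 / 2) ^ (s + 1) := by rw [pow_succ]; ring
              _ < w j := h1
          have h3 : (1 : ℝ) ≤ 2 ^ d := one_le_pow₀ (by norm_num)
          have h4 : 0 < δ ^ d := by positivity
          calc x / 2 * δ ^ d ≤ w j * δ ^ d := by gcongr
            _ ≤ w j * (2 ^ d * δ ^ d) := by
                refine mul_le_mul_of_nonneg_left ?_ (hw0 j)
                nlinarith only [hδ, hδ1, h3, h4])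
      rw [hVX, ENNReal.ofReal_le_ofReal_iff hV.le] at hres
      refine le_trans ?_ hres
      -- algebra
      have h1 : (x / 2) ^ p * Ns ^ (1 / a) ≥ (lb / (4 * K)) ^ p * N ^ (1 / a) := by
        have h2 : (x / 2) ^ p * Ns ^ (1 / a) = ((x / 2) * Ns) ^ p * Ns ^ (1 / a - p) := by
          rw [Real.mul_rpow (by positivity) hNs0.le, mul_assoc, ← Real.rpow_add hNs0]
          congr 2; ring
        have h3 : (lb / (4 * K)) ^ p * N ^ (1 / a) = ((lb / (4 * K)) * N) ^ p * N ^ (1 / a - p) := by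
          rw [Real.mul_rpow (by positivity) hNr.le, mul_assoc, ← Real.rpow_add hNr]
          congr 2; ring
        rw [h2, h3, ge_iff_le]
        have h4 : (lb / (4 * K)) * N ≤ (x / 2) * Ns := by
          have : lb / (4 * K) * N = (lb * N / 2 / K) / 2 := by field_simp; norm_num
          rw [this]; linarith only [hxN]
        have h5 : N ^ (1 / a - p) ≤ Ns ^ (1 / a - p) := by
          apply Real.rpow_le_rpow_of_nonpos hNs0 hNsN
          have : 1 / a ≤ 1 := by rw [div_le_one ha0]; exact ha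
          linarith only [hp1, this]
        gcongr
      have h2 : (lb / (4 * K)) ^ p ≥ (4 * Ck) ^ (-p) * δ ^ (ε1 * p) * lb ^ p := by
        have h3 : lb / (4 * K) ≥ (4 * Ck)⁻¹ * δ ^ ε1 * lb := by
          have h4 : (K : ℝ) ≤ Ck * (δ ^ ε1)⁻¹ := by
            rw [← Real.rpow_neg hδ.le]
            push_cast at hK2
            exact hK2
          rw [ge_iff_le, le_div_iff₀ (by positivity)]
          calc (4 * Ck)⁻¹ * δ ^ ε1 * lb * (4 * K) ≤ (4 * Ck)⁻¹ * δ ^ ε1 * lb *
                (4 * (Ck * (δ ^ ε1)⁻¹)) := by gcongr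
            _ = lb := by field_simp
        calc (lb / (4 * K)) ^ p ≥ ((4 * Ck)⁻¹ * δ ^ ε1 * lb) ^ p := by
              apply Real.rpow_le_rpow (by positivity) h3 hp0.le
          _ = _ := by
              rw [Real.mul_rpow (by positivity) hlb.le, Real.mul_rpow (by positivity) (by positivity),
                Real.inv_rpow (by positivity), ← Real.rpow_neg (by positivity),
                ← Real.rpow_mul hδ.le]
      have h3 : δ ^ ε = δ ^ ε1 * δ ^ (ε1 * p) := by
        rw [← Real.rpow_add hδ]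
        congr 1
        rw [hε1def]; field_simp
      calc c2 * δ ^ ε * (lb ^ p * δ ^ d * N ^ (1 / a))
          ≤ (c * (4 * Ck) ^ (-p)) * δ ^ ε * (lb ^ p * δ ^ d * N ^ (1 / a)) := by
            gcongr
            exact min_le_right _ _
        _ = c * δ ^ ε1 * (((4 * Ck) ^ (-p) * δ ^ (ε1 * p) * lb ^ p) * N ^ (1 / a) * δ ^ d) := by
            rw [h3]; ring
        _ ≤ c * δ ^ ε1 * ((lb / (4 * K)) ^ p * N ^ (1 / a) * δ ^ d) := by
            gcongr
        _ ≤ c * δ ^ ε1 * (((x / 2) ^ p * Ns ^ (1 / a)) * δ ^ d) := by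
            gcongr
        _ = _ := by ring

/-- weak-type bounds from the restricted form -/
theorem WK_of_restricted (hd : 1 ≤ d) {a : ℝ} (ha : 1 ≤ a)
    (h : Pool.Agent.H32.Dense.Restricted d a) {ε : ℝ} (hε : 0 < ε) :
    ∃ A : ℝ, 0 < A ∧ ∀ δ : ℝ, 0 < δ → δ < 1 → WK d (1 + a / d) δ (A * δ ^ (-ε)) := by
  have hd0 : (0 : ℝ) < d := by exact_mod_cast hd
  have ha0 : 0 < a := by linarith only [ha]
  have hε1 : 0 < ε * (d / a) := by positivity
  obtain ⟨c, hc, hr⟩ := lower_of_restricted hd ha h hε1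
  refine ⟨((2 : ℝ) ^ (d * (1 + d / a)) / c) ^ (a / d), by positivity, ?_⟩
  intro δ hδ hδ1 ι S c₀ e hF lam hlam
  rcases eq_or_ne (volume {x | lam ≤ mu δ c₀ e S x}) 0 with h0 | hne
  · rw [h0]; exact bot_le
  have htriv := level_trivial hδ.le c₀ e S hF.unit (measurableSet_level δ c₀ e S lam) hlam
    (fun x hx => hx)
  have hfin : volume {x | lam ≤ mu δ c₀ e S x} ≠ ∞ :=
    ne_top_of_le_ne_top ENNReal.ofReal_ne_top htriv
  obtain ⟨V, hV, hVF⟩ : ∃ V : ℝ, 0 < V ∧ volume {x | lam ≤ mu δ c₀ e S x} = ENNReal.ofReal V :=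
    ⟨(volume {x | lam ≤ mu δ c₀ e S x}).toReal, ENNReal.toReal_pos hne hfin,
      (ENNReal.ofReal_toReal hfin).symm⟩
  have hSpos : 0 < S.card := by
    rcases Nat.eq_zero_or_pos S.card with h0 | hp
    · exfalso
      rw [h0, hVF] at htriv
      simp at htriv
      linarith only [hV, htriv]
    · exact hp
  have hNr : (0 : ℝ) < S.card := by exact_mod_cast hSpos
  rw [hVF]
  apply ENNReal.ofReal_le_ofReal
  have hmass := level_mass δ c₀ e S (measurableSet_level δ c₀ e S lam)
    (fun x (hx : x ∈ {x | lam ≤ mu δ c₀ e S x}) => hx)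
  rw [hVF, ← ENNReal.ofReal_mul hlam.le] at hmass
  have h1 := hr δ hδ hδ1 ι S c₀ e hF hSpos {x | lam ≤ mu δ c₀ e S x}
    (measurableSet_level δ c₀ e S lam) V (lam * V / (2 ^ d * δ ^ d * S.card)) hV hVF
    (by positivity) (by
      rw [div_mul_cancel₀ _ (by positivity)]
      exact hmass)
  have h2 := solve_V hd ha hV hlam hδ hNr hc (by positivity) h1
  refine h2.trans (le_of_eq ?_)
  have h3 : (δ ^ (ε * (d / a))) ^ (-(a / d)) = δ ^ (-ε) := by
    rw [← Real.rpow_mul hδ.le]; congr 1; field_simp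
  rw [h3]

/-- **The restricted form implies the inequality of Q1 without loss.** -/
theorem lossless_of_restricted (hd : 1 ≤ d) {a : ℝ} (ha : 1 ≤ a)
    (h : Pool.Agent.H32.Dense.Restricted d a) {q : ℝ} (hq : 1 + a / d < q) :
    ∃ C : ℝ, Loss d q 0 C := by
  have hd0 : (0 : ℝ) < d := by exact_mod_cast hd
  refine lossless_of_WK hd (q₀ := 1 + a / d) ?_ (fun ε hε => WK_of_restricted hd ha h hε) hq
  gcongr

end Pool.Agent.H53.Kak

namespace Pool.Agent.H32.Dense

open Pool.Agent.H53.Kak in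
/-- Module X8. -/
theorem loss_of_restricted {d : ℕ} (hd : 1 ≤ d) {a : ℝ} (ha : 1 ≤ a) (h : Restricted d a) :
    ∀ ε : ℝ, 0 < ε → ∃ C : ℝ, Loss d (1 + a / d) ε C := by
  intro ε hε
  have hd0 : (0 : ℝ) < d := by exact_mod_cast hd
  exact loss_of_all hd (by positivity) (fun q hq => lossless_of_restricted hd ha h hq) hε

end Pool.Agent.H32.Dense
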