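import Pool.Agent.H53.Dense.Tub
import Pool.Agent.H53.Kak.DualMax

/-!
# From the discrete form to the form for tubes
-/

set_option autoImplicit false

open MeasureTheory ENNReal
open scoped RealInnerProductSpace

namespace Pool.Agent.H53.Dns

open Pool.Agent.H53.Kak Pool.Agent.H32.Dense

variable {d : ℕ} {ι : Type}

/-- comparison of the number of tubes and the number of velocities -/
noncomputable def Cw (d : ℕ) : ℝ := CG d * (5 * ((d : ℝ) + 1)) ^ d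

lemma one_le_Cw (d : ℕ) : 1 ≤ Cw d := by
  rw [Cw]
  have h1 := one_le_CG d
  have h2 : (1 : ℝ) ≤ (5 * ((d : ℝ) + 1)) ^ d := by
    apply one_le_pow₀
    have : (0 : ℝ) ≤ d := Nat.cast_nonneg d
    linarith only
  nlinarith only [h1, h2]

/-- summation over the windows -/
lemma class_sum {Q J : Finset ℤ} {x y z₀ w : ℝ} {F : ℤ → ℝ} {W : ℤ → ℤ → ℕ} {V : ℤ × ℤ → ℝ≥0∞}
    {V₀ : ℝ≥0∞} {n₁ : ℕ} (hpow : z₀ ≤ ∑ z ∈ Q, F z) (hx : 0 ≤ x) (hy : 0 ≤ y)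
    (hcnt : ∀ z, x * (y * F z) ≤ ∑ j ∈ J, (W z j : ℝ)) (hw : 0 ≤ w)
    (hpack : ∀ z, ∀ j ∈ J, (W z j : ℝ≥0∞) * ENNReal.ofReal w ≤ (n₁ : ℝ≥0∞) * V (z, j))
    (hdisj : ∑ p ∈ Q ×ˢ J, V p ≤ V₀) :
    ENNReal.ofReal (x * (y * z₀) * w) ≤ (n₁ : ℝ≥0∞) * V₀ := by
  have hfin : x * (y * z₀) ≤ ∑ z ∈ Q, ∑ j ∈ J, (W z j : ℝ) := by
    calc x * (y * z₀) ≤ x * (y * ∑ z ∈ Q, F z) := by gcongr
      _ = ∑ z ∈ Q, x * (y * F z) := by rw [Finset.mul_sum, Finset.mul_sum]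
      _ ≤ _ := Finset.sum_le_sum fun z _ => hcnt z
  have h0 : ∀ z, 0 ≤ ∑ j ∈ J, (W z j : ℝ) := fun z =>
    Finset.sum_nonneg fun _ _ => Nat.cast_nonneg _
  calc ENNReal.ofReal (x * (y * z₀) * w)
      ≤ ENNReal.ofReal ((∑ z ∈ Q, ∑ j ∈ J, (W z j : ℝ)) * w) :=
        ENNReal.ofReal_le_ofReal (mul_le_mul_of_nonneg_right hfin hw)
    _ = ∑ z ∈ Q, ∑ j ∈ J, (W z j : ℝ≥0∞) * ENNReal.ofReal w := by
        rw [ENNReal.ofReal_mul (Finset.sum_nonneg fun z _ => h0 z),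
          ENNReal.ofReal_sum_of_nonneg (fun z _ => h0 z), Finset.sum_mul]
        apply Finset.sum_congr rfl
        intro z _
        rw [ENNReal.ofReal_sum_of_nonneg (fun _ _ => Nat.cast_nonneg _), Finset.sum_mul]
        apply Finset.sum_congr rfl
        intro j _
        rw [ENNReal.ofReal_natCast]
    _ ≤ ∑ z ∈ Q, ∑ j ∈ J, (n₁ : ℝ≥0∞) * V (z, j) :=
        Finset.sum_le_sum fun z _ => Finset.sum_le_sum fun j hj => hpack z j hj
    _ = (n₁ : ℝ≥0∞) * ∑ p ∈ Q ×ˢ J, V p := by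
        rw [Finset.sum_product, Finset.mul_sum]
        apply Finset.sum_congr rfl
        intro z _
        rw [Finset.mul_sum]
    _ ≤ (n₁ : ℝ≥0∞) * V₀ := mul_le_mul_right hdisj _

/-- the bound for the tubes of one type -/
lemma class_bound {a P ε c₀ : ℝ} (ha : 1 ≤ a) (hc : 0 < c₀)
    (hcount : ∀ (m N : ℕ) (u : Fin N → Fin d → ℝ) (v : Fin N → Fin d → ℤ)
    (A : Fin N → Finset ℤ) (κ : ℝ), 0 < κ → Function.Injective v →
    (∀ i k, |v i k| ≤ 2 ^ m) → (∀ i, A i ⊆ Finset.Ico 0 (2 ^ m : ℤ)) →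
    (∀ i, κ * 2 ^ m ≤ (A i).card) →
    c₀ * ((2 : ℝ) ^ m) ^ (-ε) * (2 ^ m * κ ^ P * (N : ℝ) ^ (1 / a)) ≤
      ∑ j ∈ Finset.Ico 0 (2 ^ m : ℤ),
        (((Finset.univ.filter fun i => j ∈ A i).image fun i =>
          rd (pos (2 ^ m) (u i) (v i) j)).card : ℝ))
    {δ : ℝ} (hδ : 0 < δ) (k : Fin (d + 1)) (L : Finset ι) (c e : ι → E d)
    (hF : Fam δ e L) (hmx : ∀ i ∈ L, Mx k (e i))
    (hsgn : (∀ i ∈ L, 0 < e i k) ∨ (∀ i ∈ L, e i k < 0)) {m : ℕ}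
    (hm1 : δ * 2 ^ m ≤ 1) (hm2 : 1 ≤ 2 * (δ * 2 ^ m)) {X : Set (E d)} (hX : MeasurableSet X)
    {κ w : ℝ} (hκ : 0 < κ) (hw : 0 ≤ w) (q : ι → ℤ) (K : ι → Finset ℤ)
    (hK : ∀ i ∈ L, K i ⊆ Finset.Ico 0 (2 ^ m : ℤ)) (hcard : ∀ i ∈ L, κ * 2 ^ m ≤ (K i).card)
    (hmass : ∀ i ∈ L, ∀ j ∈ K i, ENNReal.ofReal w ≤
      volume (X ∩ tube δ (c i) (e i) ∩ slab k m (j + q i * 2 ^ m))) :
    ENNReal.ofReal (c₀ * ((2 : ℝ) ^ m) ^ (-ε) * (2 ^ m * κ ^ P *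
      ((L.card : ℝ) / Cw d) ^ (1 / a)) * w) ≤ (11 ^ d : ℕ) * volume X := by
  classical
  have ha0 : 0 < a := by linarith only [ha]
  have hCw := one_le_Cw d
  have hCw0 : 0 < Cw d := by linarith only [hCw]
  have hreps : ∀ z : ℤ, ∃ L' ⊆ L.filter (fun i => q i = z),
      Set.InjOn (fun i => vv k m (e i)) L' ∧
      L'.image (fun i => vv k m (e i)) = (L.filter fun i => q i = z).image
        fun i => vv k m (e i) := fun z => exists_reps _ _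
  choose L' hL'sub hL'inj hL'img using hreps
  have hL'card : ∀ z, ((L.filter fun i => q i = z).card : ℝ) ≤ Cw d * ((L' z).card : ℝ) := by
    intro z
    have h1 := card_vv (m := m) (b := 0) hδ k (L.filter fun i => q i = z) e
      (hF.mono (Finset.filter_subset _ _)) (fun i hi => hmx i (Finset.mem_filter.1 hi).1)
      (by
        rcases hsgn with hs | hs
        · exact Or.inl fun i hi => hs i (Finset.mem_filter.1 hi).1
        · exact Or.inr fun i hi => hs i (Finset.mem_filter.1 hi).1) (Nat.zero_le m) hm2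
    rw [Nat.sub_zero, pow_zero, one_pow, mul_one, ← hL'img z,
      Finset.card_image_of_injOn (hL'inj z)] at h1
    exact h1
  set Q : Finset ℤ := L.image q with hQ
  have hLsum : (L.card : ℝ) / Cw d ≤ ∑ z ∈ Q, ((L' z).card : ℝ) := by
    rw [div_le_iff₀ hCw0]
    have h1 : (L.card : ℝ) = ∑ z ∈ Q, ((L.filter fun i => q i = z).card : ℝ) := by
      have := Finset.card_eq_sum_card_fiberwise (s := L) (t := Q) (f := q)
        (fun x hx => Finset.mem_coe.mpr (Finset.mem_image_of_mem _ hx))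
      exact_mod_cast this
    rw [h1, Finset.sum_mul]
    apply Finset.sum_le_sum
    intro z _
    rw [mul_comm]
    exact hL'card z
  have hpow : ((L.card : ℝ) / Cw d) ^ (1 / a) ≤ ∑ z ∈ Q, ((L' z).card : ℝ) ^ (1 / a) :=
    (Real.rpow_le_rpow (by positivity) hLsum (by positivity)).trans
      (Pool.Agent.H32.AKT.rpow_sum_le _ _ (fun x _ => by positivity) (by positivity)
        (by rw [div_le_one ha0]; exact ha))
  -- the discrete inequality in every window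
  have hcnt : ∀ z, c₀ * ((2 : ℝ) ^ m) ^ (-ε) * (2 ^ m * κ ^ P * ((L' z).card : ℝ) ^ (1 / a)) ≤
      ∑ j ∈ Finset.Ico 0 (2 ^ m : ℤ), ((cells m (L' z) (fun i => uu k m m z (c i) (e i))
        (fun i => vv k m (e i)) K j).card : ℝ) := by
    intro z
    have hsub : ∀ i ∈ L' z, i ∈ L := fun i hi => (Finset.mem_filter.1 (hL'sub z hi)).1
    apply count_finset (d := d) hcount m (L' z) _ _ K hκ (hL'inj z)
    · intro i hi l
      exact vv_le (hmx i (hsub i hi)) (hF.unit i (hsub i hi)) m l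
    · exact fun i hi => hK i (hsub i hi)
    · exact fun i hi => hcard i (hsub i hi)
  -- packing
  have hpack : ∀ z, ∀ j ∈ Finset.Ico 0 (2 ^ m : ℤ),
      ((cells m (L' z) (fun i => uu k m m z (c i) (e i)) (fun i => vv k m (e i)) K j).card :
        ℝ≥0∞) * ENNReal.ofReal w ≤ (11 ^ d : ℕ) * volume (X ∩ slab k m (j + z * 2 ^ m)) := by
    intro z j hj
    have hsub : ∀ i ∈ L' z, i ∈ L := fun i hi => (Finset.mem_filter.1 (hL'sub z hi)).1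
    rw [Finset.mem_Ico] at hj
    apply pack_cells hδ.le k (L' z) c e (fun i hi => hF.unit i (hsub i hi))
      (fun i hi => hmx i (hsub i hi)) hm1 z K hX hj.1 hj.2
    intro i hi hjK
    have h1 := hmass i (hsub i hi) j hjK
    have h2 : q i = z := (Finset.mem_filter.1 (hL'sub z hi)).2
    rwa [h2] at h1
  have hdisj : ∑ p ∈ Q ×ˢ Finset.Ico 0 (2 ^ m : ℤ), volume (X ∩ slab k m (p.2 + p.1 * 2 ^ m)) ≤
      ((1 : ℕ) : ℝ≥0∞) * volume X := by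
    apply Pool.Agent.H32.AKT.sum_measure_le volume (Q ×ˢ Finset.Ico 0 (2 ^ m : ℤ))
      (fun p => X ∩ slab k m (p.2 + p.1 * 2 ^ m))
      (fun p _ => hX.inter (measurableSet_slab k m (p.2 + p.1 * 2 ^ m))) hX
      (fun p _ => Set.inter_subset_left)
    intro x
    rw [Finset.card_le_one]
    rintro ⟨z, j⟩ h1 ⟨z', j'⟩ h2
    simp only [Finset.mem_filter, Finset.mem_product, Finset.mem_Ico] at h1 h2
    have h3 : ⌊x k * 2 ^ m⌋ = j + z * 2 ^ m := h1.2.2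
    have h4 : ⌊x k * 2 ^ m⌋ = j' + z' * 2 ^ m := h2.2.2
    have h5 : z = z' := by
      have e1 : (j + z * 2 ^ m) / 2 ^ m = z := by
        rw [ediv_pow_eq]
        constructor <;> nlinarith only [h1, h1.1.2.1, h1.1.2.2]
      have e2 : (j' + z' * 2 ^ m) / 2 ^ m = z' := by
        rw [ediv_pow_eq]
        constructor <;> nlinarith only [h2, h2.1.2.1, h2.1.2.2]
      rw [← e1, ← e2, ← h3, ← h4]
    subst h5
    have h6 : j = j' := by linarith only [h3, h4]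
    rw [h6]
  rw [Nat.cast_one, one_mul] at hdisj
  -- assembly
  obtain ⟨W, hW⟩ : ∃ W : ℤ → ℤ → ℕ, ∀ z j, (cells m (L' z) (fun i => uu k m m z (c i) (e i))
    (fun i => vv k m (e i)) K j).card = W z j := ⟨_, fun _ _ => rfl⟩
  simp only [hW] at hcnt hpack
  obtain ⟨J, hJ⟩ : ∃ J : Finset ℤ, J = Finset.Ico 0 (2 ^ m : ℤ) := ⟨_, rfl⟩
  rw [← hJ] at hcnt hpack hdisj
  obtain ⟨n₁, hn₁⟩ : ∃ n₁ : ℕ, n₁ = 11 ^ d := ⟨_, rfl⟩
  rw [← hn₁] at hpack ⊢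
  exact class_sum hpow (by positivity) (by positivity) hcnt hw hpack hdisj

lemma exists_mx (e : E d) : ∃ k, Mx k e := by
  obtain ⟨k, hk⟩ := Finite.exists_max fun l : Fin (d + 1) => |e l|
  exact ⟨k, hk⟩

open Classical in
/-- the form for tubes when the density is larger than the width -/
lemma restr_main {a P ε c₀ : ℝ} (ha : 1 ≤ a) (hP : 1 ≤ P) (hε : 0 < ε) (hc : 0 < c₀)
    (hcount : ∀ (m N : ℕ) (u : Fin N → Fin d → ℝ) (v : Fin N → Fin d → ℤ)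
    (A : Fin N → Finset ℤ) (κ : ℝ), 0 < κ → Function.Injective v →
    (∀ i k, |v i k| ≤ 2 ^ m) → (∀ i, A i ⊆ Finset.Ico 0 (2 ^ m : ℤ)) →
    (∀ i, κ * 2 ^ m ≤ (A i).card) →
    c₀ * ((2 : ℝ) ^ m) ^ (-ε) * (2 ^ m * κ ^ P * (N : ℝ) ^ (1 / a)) ≤
      ∑ j ∈ Finset.Ico 0 (2 ^ m : ℤ),
        (((Finset.univ.filter fun i => j ∈ A i).image fun i =>
          rd (pos (2 ^ m) (u i) (v i) j)).card : ℝ))
    {δ : ℝ} (hδ : 0 < δ) (hδ1 : δ < 1) (S : Finset ι) (hSne : S.Nonempty) (c e : ι → E d)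
    (hF : Fam δ e S) {X : Set (E d)} (hX : MeasurableSet X) {lam : ℝ} (hlam : 0 < lam)
    (hvol : ∀ i ∈ S, ENNReal.ofReal (lam * δ ^ d) ≤ volume (X ∩ tube δ (c i) (e i)))
    {S₁ : ℕ} (hS₁ : 0 < S₁) (hS : 5 * (Cv d * (1 / 2) ^ S₁) ≤ lam / 2) :
    ENNReal.ofReal (c₀ * (Cv d / 4) * (16 * Cv d) ^ (-P) * (Cw d)⁻¹ * (2 * ((d : ℝ) + 1))⁻¹ *
      ((S₁ : ℝ) ^ (P + 1))⁻¹ * δ ^ ε * (lam ^ P * δ ^ d * (S.card : ℝ) ^ (1 / a))) ≤
      (11 ^ d : ℕ) * volume X := by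
  have ha0 : 0 < a := by linarith only [ha, hδ, hδ1]
  have hCv := Cv_pos d
  have hCw := one_le_Cw d
  have hCw0 : 0 < Cw d := by linarith only [hδ, hδ1, hCw]
  have hS₁r : (1 : ℝ) ≤ S₁ := by exact_mod_cast hS₁
  obtain ⟨m, hmA, hmB⟩ := exists_nat_pow_near (x := δ⁻¹) (y := 2)
    ((one_le_inv₀ hδ).mpr hδ1.le) (by norm_num)
  have h2m : (0 : ℝ) < 2 ^ m := by positivity
  have hm1 : δ * 2 ^ m ≤ 1 := by
    calc δ * 2 ^ m ≤ δ * δ⁻¹ := by gcongr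
      _ = 1 := mul_inv_cancel₀ hδ.ne'
  have hm2 : 1 ≤ 2 * (δ * 2 ^ m) := by
    calc (1 : ℝ) = δ * δ⁻¹ := (mul_inv_cancel₀ hδ.ne').symm
      _ ≤ δ * 2 ^ (m + 1) := by gcongr
      _ = 2 * (δ * 2 ^ m) := by rw [pow_succ]; ring
  choose kk hkk using fun i => exists_mx (e i)
  have hdata : ∀ i ∈ S, ∃ s < S₁, ∃ q : ℤ, ∃ K : Finset ℤ,
      K ⊆ Finset.Ico 0 (2 ^ m : ℤ) ∧
      (∀ j ∈ K, ENNReal.ofReal (Cv d * δ ^ (d + 1) * (1 / 2) ^ (s + 1)) ≤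
        volume (X ∩ tube δ (c i) (e i) ∩ slab (kk i) m (j + q * 2 ^ m))) ∧
      lam * δ ^ d ≤ 16 * S₁ * K.card * (Cv d * δ ^ (d + 1) * (1 / 2) ^ s) := fun i hi =>
    tube_data hδ hδ1 (hkk i) (hF.unit i hi) hm1 hm2 hlam (hvol i hi) hS₁ hS
  choose! ss hss qq KK hKK1 hKK2 hKK3 using hdata
  -- types
  set τ : ι → Fin (d + 1) × Bool × ℕ := fun i => (kk i, decide (0 < e i (kk i)), ss i) with hτ
  set TT : Finset (Fin (d + 1) × Bool × ℕ) := Finset.univ ×ˢ Finset.univ ×ˢ Finset.range S₁ with hTT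
  have hTcard : (TT.card : ℝ) = 2 * ((d : ℝ) + 1) * S₁ := by
    rw [hTT, Finset.card_product, Finset.card_product, Finset.card_univ, Finset.card_univ,
      Finset.card_range, Fintype.card_fin, Fintype.card_bool]
    push_cast; ring
  have hmaps : ∀ i ∈ S, τ i ∈ TT := by
    intro i hi
    simp only [hτ, hTT, Finset.mem_product, Finset.mem_univ, true_and, Finset.mem_range]
    exact hss i hi
  obtain ⟨t, htT, ht⟩ : ∃ t ∈ TT, (S.card : ℝ) / TT.card ≤ ((S.filter fun i => τ i = t).card : ℝ) := by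
    by_contra hcon
    push Not at hcon
    have hne : TT.Nonempty := by
      obtain ⟨i, hi⟩ := hSne
      exact ⟨τ i, hmaps i hi⟩
    have h1 : (S.card : ℝ) = ∑ t ∈ TT, ((S.filter fun i => τ i = t).card : ℝ) := by
      have := Finset.card_eq_sum_card_fiberwise (s := S) (t := TT) (f := τ)
        (fun x hx => Finset.mem_coe.mpr (hmaps x (Finset.mem_coe.mp hx)))
      exact_mod_cast this
    have h2 : ∑ t ∈ TT, ((S.filter fun i => τ i = t).card : ℝ) <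
        ∑ _t ∈ TT, (S.card : ℝ) / TT.card := Finset.sum_lt_sum_of_nonempty hne hcon
    rw [← h1, Finset.sum_const, nsmul_eq_mul, mul_div_cancel₀] at h2
    · exact lt_irrefl _ h2
    · exact_mod_cast (Finset.card_pos.mpr hne).ne'
  obtain ⟨k, σ, s⟩ := t
  set L := S.filter fun i => τ i = (k, σ, s) with hL
  have hLS : ∀ i ∈ L, i ∈ S := fun i hi => (Finset.mem_filter.1 hi).1
  have hLk : ∀ i ∈ L, kk i = k := fun i hi => congrArg Prod.fst (Finset.mem_filter.1 hi).2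
  have hLσ : ∀ i ∈ L, decide (0 < e i (kk i)) = σ := fun i hi =>
    congrArg (fun z => z.2.1) (Finset.mem_filter.1 hi).2
  have hLs : ∀ i ∈ L, ss i = s := fun i hi =>
    congrArg (fun z => z.2.2) (Finset.mem_filter.1 hi).2
  have hmx : ∀ i ∈ L, Mx k (e i) := fun i hi => hLk i hi ▸ hkk i
  have hsgn : (∀ i ∈ L, 0 < e i k) ∨ (∀ i ∈ L, e i k < 0) := by
    cases hσ : σ with
    | true =>
      left
      intro i hi
      have h1 := hLσ i hi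
      rw [hLk i hi, hσ] at h1
      exact of_decide_eq_true h1
    | false =>
      right
      intro i hi
      have h1 := hLσ i hi
      rw [hLk i hi, hσ] at h1
      have h2 := of_decide_eq_false h1
      exact lt_of_le_of_ne (not_lt.mp h2) ((hmx i hi).ne (hF.unit i (hLS i hi)))
  obtain ⟨κ, hκ⟩ : ∃ κ, κ = lam / (16 * Cv d * S₁) * 2 ^ s := ⟨_, rfl⟩
  have hκ0 : 0 < κ := by rw [hκ]; positivity
  have hcb := class_bound (ε := ε) (P := P) ha hc hcount hδ k L c e (hF.mono (Finset.filter_subset _ _))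
    hmx hsgn hm1 hm2 hX hκ0 (w := Cv d * δ ^ (d + 1) * (1 / 2) ^ (s + 1)) (by positivity) qq KK
    (fun i hi => hKK1 i (hLS i hi))
    (by
      intro i hi
      have h1 := hKK3 i (hLS i hi)
      rw [hLs i hi] at h1
      have h2 : lam * δ ^ d * 2 ^ s * 2 ^ m ≤ 16 * S₁ * (KK i).card * Cv d * δ ^ d := by
        calc lam * δ ^ d * 2 ^ s * 2 ^ m ≤
              (16 * S₁ * (KK i).card * (Cv d * δ ^ (d + 1) * (1 / 2) ^ s)) * 2 ^ s * 2 ^ m := by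
              gcongr
          _ = 16 * S₁ * (KK i).card * Cv d * δ ^ d * (δ * 2 ^ m) * ((1 / 2) ^ s * 2 ^ s) := by
              rw [pow_succ]; ring
          _ ≤ 16 * S₁ * (KK i).card * Cv d * δ ^ d * 1 * ((1 / 2) ^ s * 2 ^ s) := by gcongr
          _ = 16 * S₁ * (KK i).card * Cv d * δ ^ d := by
              rw [← mul_pow]; norm_num
      have h3 : lam * 2 ^ s * 2 ^ m ≤ 16 * S₁ * (KK i).card * Cv d := by
        have h4 : (lam * 2 ^ s * 2 ^ m) * δ ^ d ≤ (16 * S₁ * (KK i).card * Cv d) * δ ^ d := by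
          calc _ = lam * δ ^ d * 2 ^ s * 2 ^ m := by ring
            _ ≤ _ := h2
        exact le_of_mul_le_mul_right h4 (by positivity)
      rw [hκ, div_mul_eq_mul_div, div_mul_eq_mul_div, div_le_iff₀ (by positivity)]
      calc lam * 2 ^ s * 2 ^ m ≤ 16 * S₁ * (KK i).card * Cv d := h3
        _ = _ := by ring)
    (by
      intro i hi j hj
      have h1 := hKK2 i (hLS i hi) j hj
      rw [hLs i hi, hLk i hi] at h1
      exact h1)
  refine le_trans (ENNReal.ofReal_le_ofReal ?_) hcb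
  -- algebra
  have hN : (0 : ℝ) ≤ S.card := Nat.cast_nonneg _
  have g1 : δ ^ ε ≤ ((2 : ℝ) ^ m) ^ (-ε) := by
    have h1 : (δ⁻¹) ^ (-ε) ≤ ((2 : ℝ) ^ m) ^ (-ε) :=
      Real.rpow_le_rpow_of_nonpos h2m hmA (by linarith only [hε])
    rwa [Real.inv_rpow hδ.le, Real.rpow_neg hδ.le, inv_inv] at h1
  have g2 : (16 * Cv d) ^ (-P) * ((S₁ : ℝ) ^ P)⁻¹ * lam ^ P ≤ κ ^ P * (1 / 2) ^ s := by
    have h1 : κ ^ P = (16 * Cv d) ^ (-P) * ((S₁ : ℝ) ^ P)⁻¹ * lam ^ P * ((2 : ℝ) ^ s) ^ P := by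
      rw [hκ, Real.mul_rpow (by positivity) (by positivity), Real.div_rpow hlam.le (by positivity),
        Real.mul_rpow (x := 16 * Cv d) (by positivity) (by positivity),
        Real.rpow_neg (by positivity)]
      field_simp
    have h2 : (2 : ℝ) ^ s ≤ ((2 : ℝ) ^ s) ^ P := by
      have h3 : (1 : ℝ) ≤ 2 ^ s := one_le_pow₀ (by norm_num)
      calc (2 : ℝ) ^ s = ((2 : ℝ) ^ s) ^ (1 : ℝ) := (Real.rpow_one _).symm
        _ ≤ _ := Real.rpow_le_rpow_of_exponent_le h3 hP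
    rw [h1]
    have h4 : (1 : ℝ) ≤ ((2 : ℝ) ^ s) ^ P * (1 / 2) ^ s := by
      calc (1 : ℝ) = 2 ^ s * (1 / 2) ^ s := by rw [← mul_pow]; norm_num
        _ ≤ _ := by gcongr
    calc (16 * Cv d) ^ (-P) * ((S₁ : ℝ) ^ P)⁻¹ * lam ^ P =
          (16 * Cv d) ^ (-P) * ((S₁ : ℝ) ^ P)⁻¹ * lam ^ P * 1 := (mul_one _).symm
      _ ≤ (16 * Cv d) ^ (-P) * ((S₁ : ℝ) ^ P)⁻¹ * lam ^ P * (((2 : ℝ) ^ s) ^ P * (1 / 2) ^ s) := by
          gcongr
      _ = _ := by ring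
  have g3 : δ ^ d / 2 ≤ 2 ^ m * δ ^ (d + 1) := by
    rw [pow_succ]
    have : (1 / 2 : ℝ) ≤ δ * 2 ^ m := by linarith only [hm2]
    calc δ ^ d / 2 = δ ^ d * (1 / 2) := by ring
      _ ≤ δ ^ d * (δ * 2 ^ m) := by gcongr
      _ = _ := by ring
  have g4 : (Cw d)⁻¹ * (2 * ((d : ℝ) + 1))⁻¹ * (S₁ : ℝ)⁻¹ * (S.card : ℝ) ^ (1 / a) ≤
      ((L.card : ℝ) / Cw d) ^ (1 / a) := by
    obtain ⟨T, hT⟩ : ∃ T, T = 2 * ((d : ℝ) + 1) * S₁ * Cw d := ⟨_, rfl⟩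
    have hT1 : 1 ≤ T := by
      rw [hT]
      have h1 : (1 : ℝ) ≤ 2 * ((d : ℝ) + 1) := by
        have : (0 : ℝ) ≤ d := Nat.cast_nonneg d
        linarith only [hδ, hδ1]
      calc (1 : ℝ) = 1 * 1 * 1 := by norm_num
        _ ≤ 2 * ((d : ℝ) + 1) * S₁ * Cw d := by gcongr
    have h1 : (S.card : ℝ) / T ≤ (L.card : ℝ) / Cw d := by
      rw [hTcard] at ht
      calc (S.card : ℝ) / T = (S.card : ℝ) / (2 * ((d : ℝ) + 1) * S₁) / Cw d := by
            rw [hT, div_div]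
        _ ≤ _ := by gcongr
    calc (Cw d)⁻¹ * (2 * ((d : ℝ) + 1))⁻¹ * (S₁ : ℝ)⁻¹ * (S.card : ℝ) ^ (1 / a)
        = (S.card : ℝ) ^ (1 / a) / T := by rw [hT]; field_simp
      _ ≤ (S.card : ℝ) ^ (1 / a) / T ^ (1 / a) := by
          apply div_le_div_of_nonneg_left (by positivity) (by positivity)
          calc T ^ (1 / a) ≤ T ^ (1 : ℝ) :=
                Real.rpow_le_rpow_of_exponent_le hT1 (by rw [div_le_one ha0]; exact ha)
            _ = T := Real.rpow_one _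
      _ = ((S.card : ℝ) / T) ^ (1 / a) := by
          rw [Real.div_rpow hN (by linarith only [hδ, hδ1, hT1])]
      _ ≤ _ := by gcongr
  have g5 : ((S₁ : ℝ) ^ (P + 1))⁻¹ = ((S₁ : ℝ) ^ P)⁻¹ * (S₁ : ℝ)⁻¹ := by
    rw [Real.rpow_add (by positivity), Real.rpow_one, mul_inv]
  rw [g5]
  calc c₀ * (Cv d / 4) * (16 * Cv d) ^ (-P) * (Cw d)⁻¹ * (2 * ((d : ℝ) + 1))⁻¹ *
        (((S₁ : ℝ) ^ P)⁻¹ * (S₁ : ℝ)⁻¹) * δ ^ ε * (lam ^ P * δ ^ d * (S.card : ℝ) ^ (1 / a))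
      = c₀ * (Cv d / 2) * δ ^ ε * ((16 * Cv d) ^ (-P) * ((S₁ : ℝ) ^ P)⁻¹ * lam ^ P) *
          (δ ^ d / 2) * ((Cw d)⁻¹ * (2 * ((d : ℝ) + 1))⁻¹ * (S₁ : ℝ)⁻¹ *
            (S.card : ℝ) ^ (1 / a)) := by ring
    _ ≤ c₀ * (Cv d / 2) * ((2 : ℝ) ^ m) ^ (-ε) * (κ ^ P * (1 / 2) ^ s) *
          (2 ^ m * δ ^ (d + 1)) * (((L.card : ℝ) / Cw d) ^ (1 / a)) := by
        gcongr
    _ = _ := by rw [pow_succ (1 / 2 : ℝ) s]; ring

/-- The form for tubes follows from the discrete form. -/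
theorem restrictedP_of_count {d : ℕ} {a P : ℝ} (ha : 1 ≤ a) (hP : 1 + d / a ≤ P)
    (h : DenseCountP d a P) : RestrictedP d a P := by
  intro ε hε
  have ha0 : 0 < a := by linarith only [ha]
  have hd0 : (0 : ℝ) ≤ d := Nat.cast_nonneg d
  have hda : 0 ≤ (d : ℝ) / a := by positivity
  have hP1 : 1 ≤ P := by linarith only [hP, hda]
  have hCv := Cv_pos d
  have hCw := one_le_Cw d
  have hCw0 : 0 < Cw d := by linarith only [hCw]
  have hG := one_le_CG d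
  have hε2 : 0 < ε / 2 := by linarith only [hε]
  obtain ⟨c₀, hc, hcount⟩ := h (ε / 2) hε2
  obtain ⟨η, hη⟩ : ∃ η, η = ε / 2 / (P + 1) := ⟨_, rfl⟩
  have hη0 : 0 < η := by rw [hη]; positivity
  obtain ⟨m₀, hm₀⟩ : ∃ m₀ : ℕ, 10 * Cv d < 2 ^ m₀ := pow_unbounded_of_one_lt _ (by norm_num)
  obtain ⟨A₁, hA₁⟩ : ∃ A₁ : ℝ, A₁ = m₀ + 1 + 2 / η := ⟨_, rfl⟩
  have hA₁0 : 0 < A₁ := by rw [hA₁]; positivity
  obtain ⟨C₃, hC₃⟩ : ∃ C₃ : ℝ, C₃ = CG d * 3 ^ d := ⟨_, rfl⟩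
  have hC₃1 : 1 ≤ C₃ := by
    rw [hC₃]
    have : (1 : ℝ) ≤ 3 ^ d := one_le_pow₀ (by norm_num)
    nlinarith only [hG, this]
  obtain ⟨c₁, hc₁⟩ : ∃ c₁ : ℝ, c₁ = c₀ * (Cv d / 4) * (16 * Cv d) ^ (-P) * (Cw d)⁻¹ *
    (2 * ((d : ℝ) + 1))⁻¹ * (A₁ ^ (P + 1))⁻¹ / 11 ^ d := ⟨_, rfl⟩
  have hc₁0 : 0 < c₁ := by rw [hc₁]; positivity
  refine ⟨min c₁ C₃⁻¹, lt_min hc₁0 (by positivity), ?_⟩
  intro δ hδ hδ1 ι S c e hF X hX lam hlam hlam1 hvol
  rcases S.eq_empty_or_nonempty with rfl | hSne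
  · rw [Finset.card_empty, Nat.cast_zero, Real.zero_rpow (by positivity), mul_zero, mul_zero,
      ENNReal.ofReal_zero]
    exact bot_le
  rcases le_or_gt lam δ with hcase | hcase
  · -- very small density
    obtain ⟨i, hi⟩ := hSne
    refine le_trans (ENNReal.ofReal_le_ofReal ?_) ((hvol i hi).trans
      (measure_mono Set.inter_subset_left))
    have h1 := card_le_all hδ hδ1 hF
    rw [← hC₃] at h1
    have h2 : (S.card : ℝ) ^ (1 / a) ≤ C₃ * (δ ^ ((d : ℝ) / a))⁻¹ := by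
      calc (S.card : ℝ) ^ (1 / a) ≤ (C₃ * (δ ^ d)⁻¹) ^ (1 / a) := by gcongr
        _ = C₃ ^ (1 / a) * (δ ^ ((d : ℝ) / a))⁻¹ := by
            rw [Real.mul_rpow (by positivity) (by positivity), Real.inv_rpow (by positivity),
              ← Real.rpow_natCast δ d, ← Real.rpow_mul hδ.le, mul_one_div]
        _ ≤ C₃ ^ (1 : ℝ) * (δ ^ ((d : ℝ) / a))⁻¹ := by
            apply mul_le_mul_of_nonneg_right _ (by positivity)
            exact Real.rpow_le_rpow_of_exponent_le hC₃1 (by rw [div_le_one ha0]; exact ha)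
        _ = _ := by rw [Real.rpow_one]
    have h3 : lam ^ P ≤ lam * δ ^ ((d : ℝ) / a) := by
      calc lam ^ P ≤ lam ^ (1 + (d : ℝ) / a) :=
            Real.rpow_le_rpow_of_exponent_ge hlam hlam1 hP
        _ = lam * lam ^ ((d : ℝ) / a) := by rw [Real.rpow_add hlam, Real.rpow_one]
        _ ≤ _ := by gcongr
    have h4 : δ ^ ε ≤ 1 := Real.rpow_le_one hδ.le hδ1.le hε.le
    have h5 : 0 < δ ^ ((d : ℝ) / a) := by positivity
    calc min c₁ C₃⁻¹ * δ ^ ε * (lam ^ P * δ ^ d * (S.card : ℝ) ^ (1 / a))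
        ≤ C₃⁻¹ * 1 * ((lam * δ ^ ((d : ℝ) / a)) * δ ^ d * (C₃ * (δ ^ ((d : ℝ) / a))⁻¹)) := by
          gcongr
          exact min_le_right _ _
      _ = lam * δ ^ d := by field_simp
  · obtain ⟨S₁, hS1, hS2⟩ := num_levels hδ hδ1 hη0 m₀
    rw [← hA₁] at hS2
    have hδinv : 1 < δ⁻¹ := (one_lt_inv₀ hδ).mpr hδ1
    have hS₁ : 0 < S₁ := by
      rcases Nat.eq_zero_or_pos S₁ with h0 | h0
      · rw [h0, pow_zero] at hS1
        have : (1 : ℝ) ≤ 2 ^ m₀ := one_le_pow₀ (by norm_num)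
        nlinarith only [hS1, this, hCv, hδinv, hm₀]
      · exact h0
    have hS : 5 * (Cv d * (1 / 2) ^ S₁) ≤ lam / 2 := by
      have h1 : 10 * Cv d * δ⁻¹ ≤ 2 ^ S₁ := by
        refine le_trans ?_ hS1.le
        gcongr
      have h2 : 10 * Cv d ≤ δ * 2 ^ S₁ := by
        calc 10 * Cv d = δ * (10 * Cv d * δ⁻¹) := by field_simp
          _ ≤ _ := by gcongr
      rw [one_div, inv_pow]
      have h3 : 5 * (Cv d * ((2 : ℝ) ^ S₁)⁻¹) ≤ δ / 2 := by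
        rw [← div_eq_mul_inv, ← mul_div_assoc, div_le_iff₀ (by positivity)]
        linarith only [h2]
      linarith only [hcase, h3]
    have hmain := restr_main ha hP1 hε2 hc hcount hδ hδ1 S hSne c e hF hX hlam hvol hS₁ hS
    have hS₁r : (0 : ℝ) < S₁ := by exact_mod_cast hS₁
    have h11 : (0 : ℝ) < 11 ^ d := by positivity
    have h1 : c₁ * δ ^ ε ≤ (c₀ * (Cv d / 4) * (16 * Cv d) ^ (-P) * (Cw d)⁻¹ *
        (2 * ((d : ℝ) + 1))⁻¹ * ((S₁ : ℝ) ^ (P + 1))⁻¹ * δ ^ (ε / 2)) / 11 ^ d := by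
      have h2 : (S₁ : ℝ) ^ (P + 1) ≤ A₁ ^ (P + 1) * δ ^ (-(ε / 2)) := by
        calc (S₁ : ℝ) ^ (P + 1) ≤ (A₁ * δ ^ (-η)) ^ (P + 1) := by gcongr
          _ = A₁ ^ (P + 1) * δ ^ (-(ε / 2)) := by
              rw [Real.mul_rpow hA₁0.le (by positivity), ← Real.rpow_mul hδ.le, hη]
              congr 2
              field_simp
      have h3 : (A₁ ^ (P + 1))⁻¹ * δ ^ ε ≤ ((S₁ : ℝ) ^ (P + 1))⁻¹ * δ ^ (ε / 2) := by
        have h4 : δ ^ ε = δ ^ (ε / 2) * δ ^ (ε / 2) := by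
          rw [← Real.rpow_add hδ]; congr 1; ring
        have h5 : (A₁ ^ (P + 1) * δ ^ (-(ε / 2)))⁻¹ ≤ ((S₁ : ℝ) ^ (P + 1))⁻¹ :=
          inv_anti₀ (by positivity) h2
        rw [Real.rpow_neg hδ.le, mul_inv, inv_inv] at h5
        rw [h4, ← mul_assoc]
        gcongr
      calc c₁ * δ ^ ε = (c₀ * (Cv d / 4) * (16 * Cv d) ^ (-P) * (Cw d)⁻¹ *
            (2 * ((d : ℝ) + 1))⁻¹ * ((A₁ ^ (P + 1))⁻¹ * δ ^ ε)) / 11 ^ d := by rw [hc₁]; ring
        _ ≤ (c₀ * (Cv d / 4) * (16 * Cv d) ^ (-P) * (Cw d)⁻¹ *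
            (2 * ((d : ℝ) + 1))⁻¹ * (((S₁ : ℝ) ^ (P + 1))⁻¹ * δ ^ (ε / 2))) / 11 ^ d := by
            gcongr
        _ = _ := by ring
    have h6 : ENNReal.ofReal (min c₁ C₃⁻¹ * δ ^ ε * (lam ^ P * δ ^ d * (S.card : ℝ) ^ (1 / a))) *
        ((11 ^ d : ℕ) : ℝ≥0∞) ≤ ((11 ^ d : ℕ) : ℝ≥0∞) * volume X := by
      refine le_trans ?_ hmain
      have h7 : ((11 ^ d : ℕ) : ℝ≥0∞) = ENNReal.ofReal (11 ^ d) := by
        rw [← ENNReal.ofReal_natCast]; push_cast; rfl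
      rw [h7, ← ENNReal.ofReal_mul (by positivity)]
      apply ENNReal.ofReal_le_ofReal
      calc min c₁ C₃⁻¹ * δ ^ ε * (lam ^ P * δ ^ d * (S.card : ℝ) ^ (1 / a)) * 11 ^ d
          ≤ (c₁ * δ ^ ε) * (lam ^ P * δ ^ d * (S.card : ℝ) ^ (1 / a)) * 11 ^ d := by
            gcongr
            exact min_le_left _ _
        _ ≤ ((c₀ * (Cv d / 4) * (16 * Cv d) ^ (-P) * (Cw d)⁻¹ *
            (2 * ((d : ℝ) + 1))⁻¹ * ((S₁ : ℝ) ^ (P + 1))⁻¹ * δ ^ (ε / 2)) / 11 ^ d) *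
            (lam ^ P * δ ^ d * (S.card : ℝ) ^ (1 / a)) * 11 ^ d := by gcongr
        _ = _ := by field_simp
    rw [mul_comm] at h6
    have h8 : ((11 ^ d : ℕ) : ℝ≥0∞) ≠ 0 := by
      have : (11 ^ d : ℕ) ≠ 0 := by positivity
      exact_mod_cast this
    exact (ENNReal.mul_le_mul_iff_right h8 (ENNReal.natCast_ne_top _)).mp h6

/-- Module X7b. -/
theorem restricted_of_count {d : ℕ} {a : ℝ} (ha : 1 ≤ a) (h : DenseCount d a) :
    Restricted d a :=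
  restricted_of_P (restrictedP_of_count ha le_rfl (denseCountP_of h))

end Pool.Agent.H53.Dns
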