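import Pool.Agent.H32.Dense.Iface

/-!
# Iteration of the entropy inequality
-/

set_option autoImplicit false

namespace Pool.Agent.H53.Dns

open Pool.Agent.H32.Dense

/-- numerical bounds for the root -/
lemma alpha_bounds {α : ℝ} (h1 : 1 < α) (hα : α ^ 3 = 4 * α - 2) : 1.675 < α ∧ α < 1.6752 := by
  constructor
  · by_contra hcon
    push Not at hcon
    nlinarith [mul_nonneg (sub_nonneg.mpr h1.le) (sub_nonneg.mpr hcon),
      mul_nonneg (mul_nonneg (sub_nonneg.mpr h1.le) (sub_nonneg.mpr hcon)) (sub_nonneg.mpr h1.le),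
      sq_nonneg (α - 1)]
  · by_contra hcon
    push Not at hcon
    nlinarith [mul_nonneg (sub_nonneg.mpr hcon) (sub_nonneg.mpr hcon),
      mul_nonneg (mul_nonneg (sub_nonneg.mpr hcon) (sub_nonneg.mpr hcon)) (sub_nonneg.mpr h1.le)]

/-- the factorisation of the step -/
lemma step_sub {α a : ℝ} (hα : α ^ 3 = 4 * α - 2) (hD : 0 < a ^ 2 + 3 * a - 2) :
    (3 * a ^ 2 + 2 * a - 2) / (a ^ 2 + 3 * a - 2) - α =
      (a - α) * (((3 - α) * a + 2 - α ^ 2) / (a ^ 2 + 3 * a - 2)) := by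
  rw [← mul_div_assoc, div_sub' hD.ne']
  congr 1
  have : (a - α) * ((3 - α) * a + 2 - α ^ 2) =
    3 * a ^ 2 + 2 * a - 2 - (a ^ 2 + 3 * a - 2) * α + (α ^ 3 - (4 * α - 2)) := by ring
  rw [this, hα]; ring

/-- The iteration, from the general step and the passage from the form with energy to the form
without energy. -/
theorem akg_iter {d : ℕ} (hd : 11 ≤ d) {α : ℝ} (h1 : 1 < α) (hα : α ^ 3 = 4 * α - 2)
    (h0 : AKG d 2 2 (2 * d) d)
    (hloc : ∀ a lam B₀ B₁ : ℝ, AKG d a lam B₀ B₁ → 0 ≤ a → 0 ≤ lam → 0 ≤ B₁ →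
      ∀ ε : ℝ, 0 < ε → ∃ B, AKD d a (max lam ((1 + ε) * (d + 1))) B)
    (hstep : ∀ a lam B : ℝ, AKD d a lam B → 1 ≤ a → a ≤ 2 → 0 ≤ lam → ∃ B₀ B₁, 0 ≤ B₁ ∧
      AKG d ((3 * a ^ 2 + 2 * a - 2) / (a ^ 2 + 3 * a - 2))
      ((4 * a ^ 2 + 5 * a - 4 + (3 * a - 1) * lam) / (a ^ 2 + 3 * a - 2)) B₀ B₁)
    {x : ℝ} (hx : α < x) :
    ∃ a lam B₀ B₁ : ℝ, α < a ∧ a < x ∧ 0 ≤ lam ∧ lam ≤ d ∧ 0 ≤ B₁ ∧ AKG d a lam B₀ B₁ := by
  obtain ⟨hα1, hα2⟩ := alpha_bounds h1 hα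
  have hd' : (11 : ℝ) ≤ d := by exact_mod_cast hd
  have key : ∀ k : ℕ, ∃ a lam B₀ B₁ : ℝ, α < a ∧ a ≤ 2 ∧ a - α ≤ (1 / 2) ^ k ∧ 0 ≤ lam ∧
      lam ≤ d ∧ 0 ≤ B₁ ∧ AKG d a lam B₀ B₁ := by
    intro k
    induction k with
    | zero =>
      refine ⟨2, 2, 2 * d, d, by linarith, le_rfl, ?_, by norm_num, by linarith, by linarith, h0⟩
      rw [pow_zero]; linarith
    | succ k ih =>
      obtain ⟨a, lam, B₀, B₁, ha1, ha2, hak, hl0, hl1, hB, hA⟩ := ih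
      obtain ⟨ε, hε⟩ : ∃ ε : ℝ, ε = 1 / (25 * ((d : ℝ) + 1)) := ⟨_, rfl⟩
      have hε0 : 0 < ε := by rw [hε]; positivity
      have hεd : ε * ((d : ℝ) + 1) = 1 / 25 := by rw [hε]; field_simp
      obtain ⟨B, hB'⟩ := hloc a lam B₀ B₁ hA (by linarith) hl0 hB ε hε0
      have hmax : max lam ((1 + ε) * ((d : ℝ) + 1)) = d + 1 + 1 / 25 := by
        have : (1 + ε) * ((d : ℝ) + 1) = d + 1 + 1 / 25 := by
          rw [add_mul, one_mul, hεd]
        rw [this]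
        exact max_eq_right (by linarith)
      rw [hmax] at hB'
      obtain ⟨B₀', B₁', hB₁', hA'⟩ := hstep a _ B hB' (by linarith) ha2 (by linarith)
      have hD : 0 < a ^ 2 + 3 * a - 2 := by nlinarith
      have hsub := step_sub hα hD
      have hn1 : 0 < (3 - α) * a + 2 - α ^ 2 := by nlinarith
      have hn2 : (3 - α) * a + 2 - α ^ 2 ≤ 1 / 2 * (a ^ 2 + 3 * a - 2) := by nlinarith
      have hr1 : 0 < ((3 - α) * a + 2 - α ^ 2) / (a ^ 2 + 3 * a - 2) := div_pos hn1 hD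
      have hr2 : ((3 - α) * a + 2 - α ^ 2) / (a ^ 2 + 3 * a - 2) ≤ 1 / 2 := by
        rw [div_le_iff₀ hD]; exact hn2
      have haα : 0 < a - α := by linarith
      have hp1 : 0 < (a - α) * (((3 - α) * a + 2 - α ^ 2) / (a ^ 2 + 3 * a - 2)) :=
        mul_pos haα hr1
      have hp2 : (a - α) * (((3 - α) * a + 2 - α ^ 2) / (a ^ 2 + 3 * a - 2)) ≤
          (a - α) * (1 / 2) := mul_le_mul_of_nonneg_left hr2 haα.le
      refine ⟨_, _, B₀', B₁', ?_, ?_, ?_, ?_, ?_, hB₁', hA'⟩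
      · linarith
      · linarith
      · have hpk : (1 / 2 : ℝ) ^ (k + 1) = (1 / 2) ^ k * (1 / 2) := pow_succ _ _
        linarith
      · apply div_nonneg _ hD.le
        nlinarith
      · rw [div_le_iff₀ hD]
        have ha3 : 1.675 < a := by linarith
        have e1 : 11 * (a ^ 2 - 1) ≤ (d : ℝ) * (a ^ 2 - 1) :=
          mul_le_mul_of_nonneg_right hd' (by nlinarith)
        have e2 : 0 ≤ 7 * a ^ 2 - 8.12 * a - 5.96 := by nlinarith
        have e3 : (d : ℝ) * (a ^ 2 + 3 * a - 2) - (4 * a ^ 2 + 5 * a - 4 +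
            (3 * a - 1) * ((d : ℝ) + 1 + 1 / 25)) = (d : ℝ) * (a ^ 2 - 1) - 11 * (a ^ 2 - 1) +
              (7 * a ^ 2 - 8.12 * a - 5.96) := by ring
        linarith
  obtain ⟨k, hk⟩ := exists_pow_lt_of_lt_one (sub_pos.mpr hx) (by norm_num : (1 / 2 : ℝ) < 1)
  obtain ⟨a, lam, B₀, B₁, ha1, -, hak, hl0, hl1, hB, hA⟩ := key k
  exact ⟨a, lam, B₀, B₁, ha1, by linarith, hl0, hl1, hB, hA⟩

end Pool.Agent.H53.Dns
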