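import Pool.Agent.H53.Dense.Iter
import Pool.Agent.H53.Dense.Restr
import Pool.Agent.H53.Dense.Loss
import Pool.Agent.H36.Dense.X6
import Pool.Agent.H70.Dense.X7a

/-!
# From the entropy inequality to the inequality for tubes without loss
-/

set_option autoImplicit false

open MeasureTheory ENNReal
open scoped RealInnerProductSpace

namespace Pool.Agent.H53.Dns

open Pool.Agent.H53.Kak Pool.Agent.H32.Dense

/-- The entropy inequality implies the inequality for tubes, without loss. -/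
theorem lossless_of_AKG {d : ℕ} (hd : 1 ≤ d) {a lam B₀ B₁ : ℝ} (ha : 1 ≤ a) (hl0 : 0 ≤ lam)
    (hl1 : lam ≤ d) (hB : 0 ≤ B₁) (h : AKG d a lam B₀ B₁) {q : ℝ} (hq : 1 + a / d < q) :
    ∃ C : ℝ, Loss d q 0 C := by
  refine lossless_of_restricted hd ha (restricted_of_count ha ?_) hq
  exact Pool.Agent.H70.Dense.denseCount_of_dense ha hl1
    (Pool.Agent.H36.Dense.dense_of_AKG ha hl0 hB h)

/-- The final inequality, from the modules of the entropy part. -/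
theorem lossless_iter {d : ℕ} (hd : 11 ≤ d) {α : ℝ} (h1 : 1 < α) (hα : α ^ 3 = 4 * α - 2)
    (h0 : AKG d 2 2 (2 * d) d)
    (hloc : ∀ a lam B₀ B₁ : ℝ, AKG d a lam B₀ B₁ → 0 ≤ a → 0 ≤ lam → 0 ≤ B₁ →
      ∀ ε : ℝ, 0 < ε → ∃ B, AKD d a (max lam ((1 + ε) * (d + 1))) B)
    (hstep : ∀ a lam B : ℝ, AKD d a lam B → 1 ≤ a → a ≤ 2 → 0 ≤ lam → ∃ B₀ B₁, 0 ≤ B₁ ∧
      AKG d ((3 * a ^ 2 + 2 * a - 2) / (a ^ 2 + 3 * a - 2))
      ((4 * a ^ 2 + 5 * a - 4 + (3 * a - 1) * lam) / (a ^ 2 + 3 * a - 2)) B₀ B₁)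
    {q : ℝ} (hq : 1 + α / d < q) : ∃ C : ℝ, Loss d q 0 C := by
  have hd0 : (0 : ℝ) < d := by
    have : (11 : ℝ) ≤ d := by exact_mod_cast hd
    linarith
  obtain ⟨a, lam, B₀, B₁, ha1, ha2, hl0, hl1, hB, hA⟩ := akg_iter hd h1 hα h0 hloc hstep
    (x := (q - 1) * d) (by
      rw [← div_lt_iff₀ hd0]
      linarith)
  refine lossless_of_AKG (by omega) (by linarith) hl0 hl1 hB hA ?_
  rw [← div_lt_iff₀ hd0] at ha2
  linarith

end Pool.Agent.H53.Dns
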