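import Pool.Agent.H32.Dense.Iface
import Pool.Agent.H32.AKTubes

/-!
# Discrete form and form for tubes, with a free power of the density
-/

set_option autoImplicit false

open Finset MeasureTheory

namespace Pool.Agent.H53.Dns

open Pool.Agent.H32.Dense
open Pool.Agent.H53.Kak

/-- `DenseCount` with a free power of the density -/
def DenseCountP (d : ℕ) (a P : ℝ) : Prop :=
  ∀ ε : ℝ, 0 < ε → ∃ c : ℝ, 0 < c ∧ ∀ (m N : ℕ) (u : Fin N → Fin d → ℝ) (v : Fin N → Fin d → ℤ)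
    (A : Fin N → Finset ℤ) (κ : ℝ), 0 < κ → Function.Injective v →
    (∀ i k, |v i k| ≤ 2 ^ m) → (∀ i, A i ⊆ Finset.Ico 0 (2 ^ m : ℤ)) →
    (∀ i, κ * 2 ^ m ≤ (A i).card) →
    c * ((2 : ℝ) ^ m) ^ (-ε) * (2 ^ m * κ ^ P * (N : ℝ) ^ (1 / a)) ≤
      ∑ j ∈ Finset.Ico 0 (2 ^ m : ℤ),
        (((univ.filter fun i => j ∈ A i).image fun i => rd (pos (2 ^ m) (u i) (v i) j)).card : ℝ)

/-- `Restricted` with a free power of the density -/
def RestrictedP (d : ℕ) (a P : ℝ) : Prop :=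
  ∀ ε : ℝ, 0 < ε → ∃ c : ℝ, 0 < c ∧ ∀ δ : ℝ, 0 < δ → δ < 1 → ∀ (ι : Type) (S : Finset ι)
    (x₀ e : ι → E d), Fam δ e S → ∀ (X : Set (E d)), MeasurableSet X → ∀ lam : ℝ, 0 < lam →
    lam ≤ 1 →
    (∀ i ∈ S, ENNReal.ofReal (lam * δ ^ d) ≤ volume (X ∩ tube δ (x₀ i) (e i))) →
    ENNReal.ofReal (c * δ ^ ε * (lam ^ P * δ ^ d * (S.card : ℝ) ^ (1 / a))) ≤ volume X

lemma denseCountP_of {d : ℕ} {a : ℝ} (h : DenseCount d a) : DenseCountP d a (1 + d / a) := h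

lemma restricted_of_P {d : ℕ} {a : ℝ} (h : RestrictedP d a (1 + d / a)) : Restricted d a := h

variable {d : ℕ}

/-- the cells of the lines of `L` at time `j` -/
noncomputable def cells {ι : Type} (m : ℕ) (L : Finset ι) (u : ι → Fin d → ℝ)
    (v : ι → Fin d → ℤ) (K : ι → Finset ℤ) (j : ℤ) : Finset (Fin d → ℤ) :=
  (L.filter fun i => j ∈ K i).image fun i => rd (pos (2 ^ m) (u i) (v i) j)

/-- the discrete form for a finite set of lines -/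
lemma count_finset {a P ε c : ℝ}
    (h : ∀ (m N : ℕ) (u : Fin N → Fin d → ℝ) (v : Fin N → Fin d → ℤ)
    (A : Fin N → Finset ℤ) (κ : ℝ), 0 < κ → Function.Injective v →
    (∀ i k, |v i k| ≤ 2 ^ m) → (∀ i, A i ⊆ Finset.Ico 0 (2 ^ m : ℤ)) →
    (∀ i, κ * 2 ^ m ≤ (A i).card) →
    c * ((2 : ℝ) ^ m) ^ (-ε) * (2 ^ m * κ ^ P * (N : ℝ) ^ (1 / a)) ≤
      ∑ j ∈ Finset.Ico 0 (2 ^ m : ℤ),
        (((univ.filter fun i => j ∈ A i).image fun i => rd (pos (2 ^ m) (u i) (v i) j)).card : ℝ))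
    {ι : Type} (m : ℕ) (L : Finset ι) (u : ι → Fin d → ℝ) (v : ι → Fin d → ℤ)
    (K : ι → Finset ℤ) {κ : ℝ} (hκ : 0 < κ) (hinj : Set.InjOn v L)
    (hv : ∀ i ∈ L, ∀ k, |v i k| ≤ 2 ^ m) (hK : ∀ i ∈ L, K i ⊆ Finset.Ico 0 (2 ^ m : ℤ))
    (hcard : ∀ i ∈ L, κ * 2 ^ m ≤ (K i).card) :
    c * ((2 : ℝ) ^ m) ^ (-ε) * (2 ^ m * κ ^ P * (L.card : ℝ) ^ (1 / a)) ≤
      ∑ j ∈ Finset.Ico 0 (2 ^ m : ℤ), ((cells m L u v K j).card : ℝ) := by
  classical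
  set N := L.card with hN
  set φ : Fin N → ι := fun x => (L.equivFin.symm x : ι) with hφ
  have hφL : ∀ x, φ x ∈ L := fun x => (L.equivFin.symm x).2
  have hφinj : Function.Injective φ := fun x y hxy =>
    L.equivFin.symm.injective (Subtype.ext hxy)
  refine (h m N (fun x => u (φ x)) (fun x => v (φ x)) (fun x => K (φ x)) κ hκ
    (fun x y hxy => hφinj (hinj (Finset.mem_coe.mpr (hφL x)) (Finset.mem_coe.mpr (hφL y)) hxy))
    (fun x k => hv _ (hφL x) k) (fun x => hK _ (hφL x)) (fun x => hcard _ (hφL x))).trans ?_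
  apply Finset.sum_le_sum
  intro j _
  have : ((univ.filter fun x : Fin N => j ∈ K (φ x)).image fun x =>
      rd (pos (2 ^ m) (u (φ x)) (v (φ x)) j)) ⊆ cells m L u v K j := by
    intro z hz
    obtain ⟨x, hx, rfl⟩ := Finset.mem_image.mp hz
    exact Finset.mem_image.mpr ⟨φ x, Finset.mem_filter.mpr ⟨hφL x, (Finset.mem_filter.mp hx).2⟩,
      rfl⟩
  exact_mod_cast Finset.card_le_card this

end Pool.Agent.H53.Dns
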