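import Pool.Agent.H53.Dense.Restr
import Pool.Agent.H53.Dense.Loss
import Pool.Agent.H49.KH.Bridge2

/-!
# The inequality without loss in large dimension
-/

set_option autoImplicit false

open MeasureTheory ENNReal
open scoped RealInnerProductSpace

namespace Pool.Agent.H53.Dns

open Pool.Agent.H53.Kak Pool.Agent.H32.Dense

/-- The inequality of Q1 in large dimension. -/
theorem lossless_large : ∃ d₀ : ℕ, ∀ d : ℕ, d₀ ≤ d → ∀ q : ℝ, 1 + 1.6753 / d < q →
    ∃ C : ℝ, Loss d q 0 C := by
  obtain ⟨d₀, h⟩ := Pool.Agent.H49.KH.denseCount_large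
  refine ⟨max d₀ 1, fun d hd q hq => ?_⟩
  exact lossless_of_restricted (le_trans (le_max_right _ _) hd) (by norm_num)
    (restricted_of_count (by norm_num) (h d (le_trans (le_max_left _ _) hd))) hq

end Pool.Agent.H53.Dns
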