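import Pool.Agent.H53.Dense.Cel
import Pool.Agent.H53.Kak.WCells

/-!
# Tubes as lines on a grid
-/

set_option autoImplicit false

open MeasureTheory ENNReal
open scoped RealInnerProductSpace

namespace Pool.Agent.H53.Dns

open Pool.Agent.H53.Kak Pool.Agent.H32.Dense

variable {d : ℕ} {ι : Type}

/-- slopes of a direction with respect to the coordinate `k` -/
noncomputable def slp (k : Fin (d + 1)) (e : E d) (l : Fin d) : ℝ := e (k.succAbove l) / e k

/-- position of the axis at height `h` -/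
noncomputable def psl (k : Fin (d + 1)) (c e : E d) (h : ℝ) (l : Fin d) : ℝ :=
  c (k.succAbove l) + (h - c k) * slp k e l

/-- the coordinate `k` is maximal -/
def Mx (k : Fin (d + 1)) (e : E d) : Prop := ∀ l, |e l| ≤ |e k|

lemma Mx.pos {k : Fin (d + 1)} {e : E d} (h : Mx k e) (he : ‖e‖ = 1) :
    1 / ((d : ℝ) + 1) ≤ |e k| := by
  have h1 := norm_le_of_coord (abs_nonneg (e k)) h
  rw [he] at h1
  rw [div_le_iff₀ (by positivity)]
  linarith only [h1]

lemma Mx.ne {k : Fin (d + 1)} {e : E d} (h : Mx k e) (he : ‖e‖ = 1) : e k ≠ 0 := by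
  have h1 := h.pos he
  have : 0 < |e k| := lt_of_lt_of_le (by positivity) h1
  exact abs_pos.mp this

lemma Mx.slp {k : Fin (d + 1)} {e : E d} (h : Mx k e) (he : ‖e‖ = 1) (l : Fin d) :
    |slp k e l| ≤ 1 := by
  rw [Dns.slp, abs_div, div_le_one (abs_pos.mpr (h.ne he))]
  exact h _

lemma coord_le (z : E d) (k : Fin (d + 1)) : |z k| ≤ ‖z‖ := by
  simpa using PiLp.norm_apply_le z k

/-- a point of a tube is close to the axis at its own height -/
lemma near_psl {δ : ℝ} (hδ : 0 ≤ δ) {k : Fin (d + 1)} {c e x : E d} (h : Mx k e) (he : ‖e‖ = 1)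
    (hx : x ∈ tube δ c e) (l : Fin d) : |x (k.succAbove l) - psl k c e (x k) l| ≤ 2 * δ := by
  obtain ⟨s, w, h1, h2, -, -⟩ := tube_decomp hx
  have hk := h.ne he
  have e1 : ∀ r, x r = c r + s * e r + w r := by
    intro r
    have h3 : (x - c) r = (s • e + w) r := by rw [h1]
    simp only [PiLp.sub_apply, PiLp.add_apply, PiLp.smul_apply, smul_eq_mul] at h3
    linarith only [h3]
  have hsl := h.slp he l
  have e2 : x (k.succAbove l) - psl k c e (x k) l = w (k.succAbove l) - w k * slp k e l := by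
    rw [psl, e1 (k.succAbove l), e1 k, Dns.slp]
    field_simp
    ring
  rw [e2]
  calc |w (k.succAbove l) - w k * slp k e l| ≤ |w (k.succAbove l)| + |w k * slp k e l| :=
        abs_sub _ _
    _ ≤ δ + δ * 1 := by
        rw [abs_mul]
        have h3 := (coord_le w (k.succAbove l)).trans h2
        have h4 := (coord_le w k).trans h2
        gcongr
    _ = 2 * δ := by ring

/-- base point (in units of `2 ^ (-m)`) of the line in the window `q` of length `2 ^ (m' - m)` -/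
noncomputable def uu (k : Fin (d + 1)) (m m' : ℕ) (q : ℤ) (c e : E d) (l : Fin d) : ℝ :=
  2 ^ m * psl k c e ((q : ℝ) * 2 ^ m' / 2 ^ m) l

/-- velocity of the line in a window of length `2 ^ (m' - m)` -/
noncomputable def vv (k : Fin (d + 1)) (m' : ℕ) (e : E d) (l : Fin d) : ℤ :=
  ⌊2 ^ m' * slp k e l⌋

lemma vv_le {k : Fin (d + 1)} {e : E d} (h : Mx k e) (he : ‖e‖ = 1) (m' : ℕ) (l : Fin d) :
    |vv k m' e l| ≤ 2 ^ m' := by
  have h1 := abs_le.mp (h.slp he l)
  have h2 : (0 : ℝ) < 2 ^ m' := by positivity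
  rw [abs_le]
  constructor
  · rw [vv, Int.le_floor]
    push_cast
    nlinarith only [h1, h2]
  · have : (vv k m' e l : ℝ) ≤ ((2 ^ m' : ℤ) : ℝ) := by
      rw [vv]
      refine (Int.floor_le _).trans ?_
      push_cast
      nlinarith only [h1, h2]
    exact_mod_cast this

/-- slab number `j` -/
def slab (k : Fin (d + 1)) (m : ℕ) (j : ℤ) : Set (E d) := {x | ⌊x k * 2 ^ m⌋ = j}

lemma measurableSet_slab (k : Fin (d + 1)) (m : ℕ) (j : ℤ) :
    MeasurableSet (slab k m j : Set (E d)) := by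
  have hm : Measurable (fun x : E d => ⌊x k * 2 ^ m⌋) := by
    apply Int.measurable_floor.comp
    apply Measurable.mul_const
    exact (continuous_apply k |>.comp (PiLp.continuous_ofLp 2 _)).measurable
  exact hm (measurableSet_singleton j)

lemma slab_disjoint (k : Fin (d + 1)) (m : ℕ) {i j : ℤ} (hij : i ≠ j) :
    Disjoint (slab k m i : Set (E d)) (slab k m j) := by
  rw [Set.disjoint_left]
  intro x hx hy
  exact hij (hx.symm.trans hy)

/-- a point of the tube in a slab is close to the cell of the line -/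
lemma cell_near {δ : ℝ} (hδ : 0 ≤ δ) {k : Fin (d + 1)} {c e x : E d} (h : Mx k e) (he : ‖e‖ = 1)
    {m m' : ℕ} (hδm : δ * 2 ^ m ≤ 1) (hx : x ∈ tube δ c e) {q j : ℤ} (hj0 : 0 ≤ j)
    (hj1 : j < 2 ^ m') (hxj : x ∈ (slab k m (j + q * 2 ^ m') : Set (E d))) (l : Fin d) :
    |2 ^ m * x (k.succAbove l) -
      (rd (pos (2 ^ m') (uu k m m' q c e) (vv k m' e) j) l : ℝ)| ≤ 5 := by
  have h2m : (0 : ℝ) < 2 ^ m := by positivity
  have h2m' : (0 : ℝ) < 2 ^ m' := by positivity
  have h1 := near_psl hδ h he hx l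
  have h2 : |2 ^ m * x (k.succAbove l) - 2 ^ m * psl k c e (x k) l| ≤ 2 := by
    rw [← mul_sub, abs_mul, abs_of_pos h2m]
    nlinarith only [hδm, h2m, h1]
  obtain ⟨f, hf⟩ : ∃ f, f = x k * 2 ^ m - ((j : ℝ) + q * 2 ^ m') := ⟨_, rfl⟩
  have hf0 : 0 ≤ f ∧ f < 1 := by
    have h3 : ⌊x k * 2 ^ m⌋ = j + q * 2 ^ m' := hxj
    rw [Int.floor_eq_iff] at h3
    push_cast at h3
    constructor <;> linarith only [hf, h3, h3.1, h3.2]
  obtain ⟨g, hg⟩ : ∃ g, g = 2 ^ m' * slp k e l - (vv k m' e l : ℝ) := ⟨_, rfl⟩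
  have hg0 : 0 ≤ g ∧ g < 1 := by
    have h3 := Int.floor_le (2 ^ m' * slp k e l)
    have h4 := Int.lt_floor_add_one (2 ^ m' * slp k e l)
    rw [hg, vv]
    constructor <;> linarith
  have hjr : 0 ≤ (j : ℝ) / 2 ^ m' ∧ (j : ℝ) / 2 ^ m' ≤ 1 := by
    have h3 : (0 : ℝ) ≤ j := by exact_mod_cast hj0
    have h4 : (j : ℝ) ≤ 2 ^ m' := by exact_mod_cast hj1.le
    exact ⟨by positivity, (div_le_one h2m').mpr h4⟩
  have e1 : 2 ^ m * psl k c e (x k) l -
      pos (2 ^ m') (uu k m m' q c e) (vv k m' e) j l = f * slp k e l + (j : ℝ) / 2 ^ m' * g := by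
    rw [hg, hf]
    simp only [pos, uu, psl]
    push_cast
    field_simp
    ring
  have e2 : |2 ^ m * psl k c e (x k) l - pos (2 ^ m') (uu k m m' q c e) (vv k m' e) j l| ≤ 2 := by
    rw [e1]
    have h3 : |f * slp k e l| ≤ 1 := by
      rw [abs_mul, abs_of_nonneg hf0.1]
      have := h.slp he l
      nlinarith only [hf0, this, abs_nonneg (slp k e l), hf0.1, hf0.2]
    have h4 : |(j : ℝ) / 2 ^ m' * g| ≤ 1 := by
      rw [abs_mul, abs_of_nonneg hjr.1, abs_of_nonneg hg0.1]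
      nlinarith only [hg0, hjr, hjr.1, hjr.2, hg0.1, hg0.2]
    calc _ ≤ |f * slp k e l| + |(j : ℝ) / 2 ^ m' * g| := abs_add_le _ _
      _ ≤ 2 := by linarith only [h3, h4]
  have e3 : |pos (2 ^ m') (uu k m m' q c e) (vv k m' e) j l -
      (rd (pos (2 ^ m') (uu k m m' q c e) (vv k m' e) j) l : ℝ)| ≤ 1 := by
    simp only [rd]
    have h3 := Int.floor_le (pos (2 ^ m') (uu k m m' q c e) (vv k m' e) j l)
    have h4 := Int.lt_floor_add_one (pos (2 ^ m') (uu k m m' q c e) (vv k m' e) j l)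
    rw [abs_le]
    constructor <;> linarith
  rw [abs_le] at h2 e2 e3 ⊢
  constructor <;> linarith only [h2, e2, e3, h2.1, h2.2, e2.1, e2.2, e3.1, e3.2]

lemma card_box (y : Fin d → ℝ) (Z : Finset (Fin d → ℤ)) (h : ∀ z ∈ Z, ∀ l, |y l - (z l : ℝ)| ≤ 5) :
    Z.card ≤ 11 ^ d := by
  have hsub : Z ⊆ Fintype.piFinset fun l => Finset.Icc ⌈y l - 5⌉ (⌈y l - 5⌉ + 10) := by
    intro z hz
    rw [Fintype.mem_piFinset]
    intro l
    have h1 := abs_le.mp (h z hz l)
    have h2 := Int.le_ceil (y l - 5)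
    rw [Finset.mem_Icc]
    constructor
    · exact Int.ceil_le.mpr (by linarith only [h1, h1.2])
    · have : (z l : ℝ) ≤ ((⌈y l - 5⌉ + 10 : ℤ) : ℝ) := by push_cast; linarith only [h1, h2, h1.1]
      exact_mod_cast this
  refine (Finset.card_le_card hsub).trans ?_
  rw [Fintype.card_piFinset]
  simp only [Int.card_Icc]
  have : ∀ l : Fin d, (⌈y l - 5⌉ + 10 + 1 - ⌈y l - 5⌉).toNat = 11 := by
    intro l
    have : ⌈y l - 5⌉ + 10 + 1 - ⌈y l - 5⌉ = 11 := by ring
    rw [this]; rfl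
  rw [Finset.prod_congr rfl fun l _ => this l]
  simp

open Classical in
/-- the cells occupied at a time carry mass -/
lemma pack_cells {δ : ℝ} (hδ : 0 ≤ δ) (k : Fin (d + 1)) (L : Finset ι) (c e : ι → E d)
    (hunit : ∀ i ∈ L, ‖e i‖ = 1) (hmx : ∀ i ∈ L, Mx k (e i)) {m m' : ℕ} (hδm : δ * 2 ^ m ≤ 1)
    (q : ℤ) (K : ι → Finset ℤ) {X : Set (E d)} (hX : MeasurableSet X) {w : ℝ≥0∞}
    {j : ℤ} (hj0 : 0 ≤ j) (hj1 : j < 2 ^ m')
    (hw : ∀ i ∈ L, j ∈ K i → w ≤ volume (X ∩ tube δ (c i) (e i) ∩ slab k m (j + q * 2 ^ m'))) :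
    ((cells m' L (fun i => uu k m m' q (c i) (e i)) (fun i => vv k m' (e i)) K j).card : ℝ≥0∞) * w ≤
      (11 ^ d : ℕ) * volume (X ∩ slab k m (j + q * 2 ^ m')) := by
  set Z := cells m' L (fun i => uu k m m' q (c i) (e i)) (fun i => vv k m' (e i)) K j with hZ
  have hrep : ∀ z : Z, ∃ i : ι, i ∈ L ∧ j ∈ K i ∧
      rd (pos (2 ^ m') (uu k m m' q (c i) (e i)) (vv k m' (e i)) j) = z.1 := by
    rintro ⟨z, hz⟩
    obtain ⟨i, hi, h2⟩ := Finset.mem_image.mp hz
    rw [Finset.mem_filter] at hi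
    exact ⟨i, hi.1, hi.2, h2⟩
  choose f hf1 hf2 hf3 using hrep
  have h1 := Pool.Agent.H32.AKT.sum_measure_le volume (Finset.univ : Finset Z)
    (fun z => X ∩ tube δ (c (f z)) (e (f z)) ∩ slab k m (j + q * 2 ^ m'))
    (fun z _ => (hX.inter (measurableSet_tube _ _ _)).inter (measurableSet_slab _ _ _))
    (hX.inter (measurableSet_slab k m (j + q * 2 ^ m')))
    (fun z _ x hx => ⟨hx.1.1, hx.2⟩) (K := 11 ^ d) (by
      intro x
      have h2 := card_box (fun l => 2 ^ m * x (k.succAbove l))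
        ((Finset.univ.filter fun z : Z => x ∈ X ∩ tube δ (c (f z)) (e (f z)) ∩
          slab k m (j + q * 2 ^ m')).image fun z => z.1) (by
        intro z hz l
        obtain ⟨z', hz', rfl⟩ := Finset.mem_image.mp hz
        have h3 := (Finset.mem_filter.mp hz').2
        have h4 := cell_near hδ (hmx _ (hf1 z')) (hunit _ (hf1 z')) hδm h3.1.2 hj0 hj1 h3.2 l
        rw [hf3 z'] at h4
        exact h4)
      rw [Finset.card_image_of_injective _ Subtype.val_injective] at h2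
      exact h2)
  refine le_trans ?_ h1
  calc (Z.card : ℝ≥0∞) * w = ∑ _z : Z, w := by
        rw [Finset.sum_const, Finset.card_univ, Fintype.card_coe, nsmul_eq_mul]
    _ ≤ _ := Finset.sum_le_sum fun z _ => hw _ (hf1 z) (hf2 z)

/-- few tubes have the same velocity -/
lemma card_vv {δ : ℝ} (hδ : 0 < δ) (k : Fin (d + 1)) (L : Finset ι) (e : ι → E d)
    (hF : Fam δ e L) (hmx : ∀ i ∈ L, Mx k (e i))
    (hsgn : (∀ i ∈ L, 0 < e i k) ∨ (∀ i ∈ L, e i k < 0)) {m b : ℕ} (hb : b ≤ m)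
    (hδm : 1 ≤ 2 * (δ * 2 ^ m)) :
    (L.card : ℝ) ≤ CG d * (5 * ((d : ℝ) + 1)) ^ d * (2 ^ b) ^ d *
      ((L.image fun i => vv k (m - b) (e i)).card : ℝ) := by
  classical
  have hG := CG_pos d
  have h2m : (0 : ℝ) < 2 ^ (m - b) := by positivity
  have hfib : ∀ z ∈ L.image (fun i => vv k (m - b) (e i)),
      ((L.filter fun i => vv k (m - b) (e i) = z).card : ℝ) ≤
        CG d * (5 * ((d : ℝ) + 1)) ^ d * (2 ^ b) ^ d := by
    intro z hz
    obtain ⟨i₀, hi₀, hz₀⟩ := Finset.mem_image.mp hz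
    have hnear : ∀ i ∈ L.filter (fun i => vv k (m - b) (e i) = z),
        ‖e i - e i₀‖ ≤ 2 * (((d : ℝ) + 1) * (1 / 2 ^ (m - b))) := by
      intro i hi
      rw [Finset.mem_filter] at hi
      have hsl : ∀ l, |slp k (e i) l - slp k (e i₀) l| ≤ 1 / 2 ^ (m - b) := by
        intro l
        have h1 : vv k (m - b) (e i) l = vv k (m - b) (e i₀) l := by rw [hi.2, hz₀]
        have h2 := Int.abs_sub_lt_one_of_floor_eq_floor h1
        rw [← mul_sub, abs_mul, abs_of_pos h2m] at h2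
        rw [le_div_iff₀ h2m]
        linarith only [h2]
      have hcoord : ∀ r, |((e i k)⁻¹ • e i - (e i₀ k)⁻¹ • e i₀) r| ≤ 1 / 2 ^ (m - b) := by
        intro r
        have hk1 := (hmx i hi.1).ne (hF.unit i hi.1)
        have hk0 := (hmx i₀ hi₀).ne (hF.unit i₀ hi₀)
        simp only [PiLp.sub_apply, PiLp.smul_apply, smul_eq_mul]
        rcases eq_or_ne r k with rfl | hr
        · rw [inv_mul_cancel₀ hk1, inv_mul_cancel₀ hk0, sub_self, abs_zero]
          positivity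
        · obtain ⟨l, rfl⟩ := Fin.exists_succAbove_eq hr
          have := hsl l
          simp only [slp] at this
          rw [inv_mul_eq_div, inv_mul_eq_div]
          exact this
      have hnorm := norm_le_of_coord (by positivity : (0 : ℝ) ≤ 1 / 2 ^ (m - b)) hcoord
      rcases hsgn with hs | hs
      · refine (Pool.Agent.H32.AKT.slope_sep (j := k) (hF.unit i hi.1) (hF.unit i₀ hi₀)
          (hs i hi.1) (hs i₀ hi₀)).trans ?_
        linarith only [hnorm]
      · have h3 := Pool.Agent.H32.AKT.slope_sep (j := k) (e := -e i) (e' := -e i₀)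
          (by rw [norm_neg]; exact hF.unit i hi.1) (by rw [norm_neg]; exact hF.unit i₀ hi₀)
          (by simp only [PiLp.neg_apply]; linarith only [hs, hi, hs i hi.1])
          (by simp only [PiLp.neg_apply]; linarith only [hs, hi₀, hs i₀ hi₀])
        have e1 : -e i - -e i₀ = -(e i - e i₀) := by abel
        have e2 : ((-e i) k)⁻¹ • -e i - ((-e i₀) k)⁻¹ • -e i₀ =
            (e i k)⁻¹ • e i - (e i₀ k)⁻¹ • e i₀ := by
          simp only [PiLp.neg_apply, inv_neg, smul_neg, neg_smul, neg_neg]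
        rw [e1, norm_neg, e2] at h3
        linarith only [hnorm, h3]
    have h1 := card_near' hδ (hF.mono (Finset.filter_subset _ _)) (e i₀) (by positivity) hnear
    refine h1.trans ?_
    rw [mul_assoc, ← mul_pow]
    have h2 : (2 * (((d : ℝ) + 1) * (1 / 2 ^ (m - b))) + δ) / δ ≤ 5 * ((d : ℝ) + 1) * 2 ^ b := by
      rw [div_le_iff₀ hδ]
      have h3 : 1 / (2 : ℝ) ^ (m - b) = 2 ^ b / 2 ^ m := by
        rw [div_eq_div_iff (by positivity) (by positivity), one_mul, ← pow_add]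
        congr 1; omega
      have h4 : (2 : ℝ) ^ b / 2 ^ m ≤ 2 * δ * 2 ^ b := by
        rw [div_le_iff₀ (by positivity)]
        calc (2 : ℝ) ^ b = 2 ^ b * 1 := (mul_one _).symm
          _ ≤ 2 ^ b * (2 * (δ * 2 ^ m)) := by gcongr
          _ = _ := by ring
      rw [h3]
      have h5 : (1 : ℝ) ≤ 2 ^ b := one_le_pow₀ (by norm_num)
      have h6 : (0 : ℝ) ≤ d := Nat.cast_nonneg d
      have h7 : δ ≤ ((d : ℝ) + 1) * 2 ^ b * δ := by
        have : 1 ≤ ((d : ℝ) + 1) * 2 ^ b := by nlinarith only [h5]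
        nlinarith only [hδ, this]
      have h8 : 2 * (((d : ℝ) + 1) * (2 ^ b / 2 ^ m)) ≤ 2 * (((d : ℝ) + 1) * (2 * δ * 2 ^ b)) := by
        gcongr
      calc 2 * (((d : ℝ) + 1) * (2 ^ b / 2 ^ m)) + δ
          ≤ 2 * (((d : ℝ) + 1) * (2 * δ * 2 ^ b)) + ((d : ℝ) + 1) * 2 ^ b * δ := by linarith only [h7, h8]
        _ = 5 * ((d : ℝ) + 1) * 2 ^ b * δ := by ring
    gcongr
  have hc : (L.card : ℝ) = ∑ z ∈ L.image (fun i => vv k (m - b) (e i)),
      ((L.filter fun i => vv k (m - b) (e i) = z).card : ℝ) := by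
    have := Finset.card_eq_sum_card_fiberwise (s := L)
      (t := L.image fun i => vv k (m - b) (e i)) (f := fun i => vv k (m - b) (e i))
      (fun x hx => Finset.mem_coe.mpr (Finset.mem_image_of_mem _ hx))
    exact_mod_cast this
  rw [hc]
  refine (Finset.sum_le_sum hfib).trans (le_of_eq ?_)
  rw [Finset.sum_const, nsmul_eq_mul]; ring

/-- the constant in the volume of a tube in a slab -/
noncomputable def Cv (d : ℕ) : ℝ := 2 ^ d * (6 * ((d : ℝ) + 1))

lemma Cv_pos (d : ℕ) : 0 < Cv d := by rw [Cv]; positivity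

/-- the volume of the part of a tube in a slab -/
lemma vol_slab {δ : ℝ} (hδ : 0 < δ) {k : Fin (d + 1)} {c e : E d} (h : Mx k e) (he : ‖e‖ = 1)
    {m : ℕ} (hδm : 1 ≤ 2 * (δ * 2 ^ m)) (j : ℤ) :
    volume (tube δ c e ∩ slab k m j) ≤ ENNReal.ofReal (Cv d * δ ^ (d + 1)) := by
  have h2m : (0 : ℝ) < 2 ^ m := by positivity
  have hk := h.ne he
  have hkp := h.pos he
  have habs : 0 < |e k| := abs_pos.mpr hk
  refine (measure_mono ?_).trans ((volume_slab_le δ hδ.le c e he (((j : ℝ) / 2 ^ m - c k) / e k)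
    (3 * ((d : ℝ) + 1) * δ)).trans (le_of_eq ?_))
  · rintro x ⟨hx, hxj⟩
    refine ⟨hx, ?_⟩
    obtain ⟨s, w, h1, h2, -, h4⟩ := tube_decomp hx
    rw [← h4]
    have e1 : x k = c k + s * e k + w k := by
      have h3 : (x - c) k = (s • e + w) k := by rw [h1]
      simp only [PiLp.sub_apply, PiLp.add_apply, PiLp.smul_apply, smul_eq_mul] at h3
      linarith only [h3]
    have h5 : ⌊x k * 2 ^ m⌋ = j := hxj
    rw [Int.floor_eq_iff] at h5
    have e2 : s - ((j : ℝ) / 2 ^ m - c k) / e k = (x k - j / 2 ^ m - w k) / e k := by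
      rw [e1]; field_simp; ring
    rw [e2, abs_div, div_le_iff₀ habs]
    have h6 : |x k - j / 2 ^ m| ≤ 2 * δ := by
      have h7 : 1 / (2 : ℝ) ^ m ≤ 2 * δ := by
        rw [div_le_iff₀ h2m]; linarith only [hδm]
      have h8 : x k - j / 2 ^ m = (x k * 2 ^ m - j) * (1 / 2 ^ m) := by field_simp
      rw [h8, abs_mul, abs_of_pos (by positivity : (0 : ℝ) < 1 / 2 ^ m), abs_of_nonneg (by linarith only [h5])]
      have h9 : x k * 2 ^ m - j ≤ 1 := by linarith only [h5]
      calc (x k * 2 ^ m - j) * (1 / 2 ^ m) ≤ 1 * (2 * δ) := by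
            apply mul_le_mul h9 h7 (by positivity) (by norm_num)
        _ = 2 * δ := one_mul _
    have h7 : |w k| ≤ δ := (coord_le w k).trans h2
    calc |x k - j / 2 ^ m - w k| ≤ |x k - j / 2 ^ m| + |w k| := abs_sub _ _
      _ ≤ 3 * δ := by linarith only [h6, h7]
      _ = 3 * ((d : ℝ) + 1) * δ * (1 / ((d : ℝ) + 1)) := by field_simp
      _ ≤ 3 * ((d : ℝ) + 1) * δ * |e k| := by gcongr
  · congr 1
    rw [Cv, mul_pow, pow_succ]
    ring

/-- heights of the points of a tube -/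
lemma height_near {δ : ℝ} (hδ1 : δ < 1) {k : Fin (d + 1)} {c e x : E d} (he : ‖e‖ = 1)
    (hx : x ∈ tube δ c e) : |x k - c k| ≤ 3 / 2 := by
  obtain ⟨s, w, h1, h2, h3, -⟩ := tube_decomp hx
  have e1 : x k - c k = s * e k + w k := by
    have h4 : (x - c) k = (s • e + w) k := by rw [h1]
    simp only [PiLp.sub_apply, PiLp.add_apply, PiLp.smul_apply, smul_eq_mul] at h4
    exact h4
  rw [e1]
  have h5 : |w k| ≤ δ := (coord_le w k).trans h2
  have h6 : |e k| ≤ 1 := by rw [← he]; exact coord_le e k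
  calc |s * e k + w k| ≤ |s * e k| + |w k| := abs_add_le _ _
    _ ≤ 1 / 2 * 1 + δ := by
        rw [abs_mul]; gcongr
    _ ≤ 3 / 2 := by linarith only [hδ1]

end Pool.Agent.H53.Dns
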