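import Pool.Agent.H53.Dense.Line
import Pool.Agent.H53.Kak.Dual

/-!
# The slabs of a tube: pigeonholing and choice of the window
-/

set_option autoImplicit false

open MeasureTheory ENNReal
open scoped RealInnerProductSpace

namespace Pool.Agent.H53.Dns

open Pool.Agent.H53.Kak Pool.Agent.H32.Dense

variable {d : ℕ} {ι : Type}

lemma exists_reps {α β : Type*} [DecidableEq α] [DecidableEq β] (L : Finset α) (f : α → β) :
    ∃ L' ⊆ L, Set.InjOn f L' ∧ L'.image f = L.image f := by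
  have h : ∀ z : L.image f, ∃ i ∈ L, f i = z.1 := fun z => Finset.mem_image.mp z.2
  choose g hg1 hg2 using h
  refine ⟨Finset.univ.image g, ?_, ?_, ?_⟩
  · intro i hi
    obtain ⟨z, -, rfl⟩ := Finset.mem_image.mp hi
    exact hg1 z
  · intro x hx y hy hxy
    obtain ⟨z, -, rfl⟩ := Finset.mem_image.mp (Finset.mem_coe.mp hx)
    obtain ⟨w, -, rfl⟩ := Finset.mem_image.mp (Finset.mem_coe.mp hy)
    rw [hg2, hg2] at hxy
    rw [Subtype.ext hxy]
  · apply Finset.Subset.antisymm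
    · intro z hz
      obtain ⟨i, hi, rfl⟩ := Finset.mem_image.mp hz
      obtain ⟨w, -, rfl⟩ := Finset.mem_image.mp hi
      exact Finset.mem_image_of_mem f (hg1 w)
    · intro z hz
      refine Finset.mem_image.mpr ⟨g ⟨z, hz⟩, Finset.mem_image_of_mem g (Finset.mem_univ _), ?_⟩
      exact hg2 ⟨z, hz⟩

lemma ediv_pow_eq {x q : ℤ} {n : ℕ} : x / 2 ^ n = q ↔ q * 2 ^ n ≤ x ∧ x < (q + 1) * 2 ^ n := by
  have h2 : (0 : ℤ) < 2 ^ n := by positivity
  constructor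
  · rintro rfl
    refine ⟨Int.ediv_mul_le x h2.ne', ?_⟩
    have := Int.lt_ediv_add_one_mul_self x h2
    exact this
  · rintro ⟨h3, h4⟩
    apply le_antisymm
    · rw [← Int.lt_add_one_iff]
      exact Int.ediv_lt_of_lt_mul h2 h4
    · exact (Int.le_ediv_iff_mul_le h2).mpr h3

/-- few unit windows -/
lemma card_windows {m : ℕ} (y : ℝ) (K : Finset ℤ)
    (hK : ∀ j ∈ K, |(j : ℝ) / 2 ^ m - y| ≤ 5 / 2) : (K.image fun x => x / 2 ^ m).card ≤ 8 := by
  have h2m : (0 : ℝ) < 2 ^ m := by positivity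
  have h1 : (((K.image fun x => x / 2 ^ m).card : ℕ) : ℝ) ≤ 2 * (15 / 4) + 1 := by
    apply Pool.Agent.H32.AKT.card_window _ y (by norm_num)
    intro q hq
    obtain ⟨j, hj, rfl⟩ := Finset.mem_image.mp hq
    have h3 := abs_le.mp (hK j hj)
    obtain ⟨h4, h5⟩ := (ediv_pow_eq (x := j) (n := m)).mp rfl
    have h6 : ((j / 2 ^ m : ℤ) : ℝ) ≤ (j : ℝ) / 2 ^ m := by
      rw [le_div_iff₀ h2m]; exact_mod_cast h4
    have h7 : (j : ℝ) / 2 ^ m < ((j / 2 ^ m : ℤ) : ℝ) + 1 := by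
      rw [div_lt_iff₀ h2m]; exact_mod_cast h5
    rw [abs_lt]
    constructor <;> linarith [h3.1, h3.2]
  have h2 : (((K.image fun x => x / 2 ^ m).card : ℕ) : ℝ) < 9 := by linarith only [h1]
  have : (K.image fun x => x / 2 ^ m).card < 9 := by exact_mod_cast h2
  omega

open Classical in
/-- choice of a level and a window for one tube -/
lemma tube_data {δ : ℝ} (hδ : 0 < δ) (hδ1 : δ < 1) {k : Fin (d + 1)} {c e : E d} (h : Mx k e)
    (he : ‖e‖ = 1) {m : ℕ} (hm1 : δ * 2 ^ m ≤ 1) (hm2 : 1 ≤ 2 * (δ * 2 ^ m)) {X : Set (E d)}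
    {lam : ℝ} (hlam : 0 < lam)
    (hX : ENNReal.ofReal (lam * δ ^ d) ≤ volume (X ∩ tube δ c e)) {S₁ : ℕ} (hS₁ : 0 < S₁)
    (hS : 5 * (Cv d * (1 / 2) ^ S₁) ≤ lam / 2) :
    ∃ s < S₁, ∃ q : ℤ, ∃ K : Finset ℤ,
      K ⊆ Finset.Ico 0 (2 ^ m : ℤ) ∧
      (∀ j ∈ K, ENNReal.ofReal (Cv d * δ ^ (d + 1) * (1 / 2) ^ (s + 1)) ≤
        volume (X ∩ tube δ c e ∩ slab k m (j + q * 2 ^ m))) ∧
      lam * δ ^ d ≤ 16 * S₁ * K.card * (Cv d * δ ^ (d + 1) * (1 / 2) ^ s) := by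
  have h2m : (0 : ℝ) < 2 ^ m := by positivity
  have hCv := Cv_pos d
  obtain ⟨w₀, hw₀⟩ : ∃ w₀, w₀ = Cv d * δ ^ (d + 1) := ⟨_, rfl⟩
  have hw₀0 : 0 < w₀ := by rw [hw₀]; positivity
  rw [← hw₀]
  -- masses
  obtain ⟨W, hW0, hWE⟩ : ∃ W : ℤ → ℝ, (∀ j, 0 ≤ W j) ∧
      ∀ j, volume (X ∩ tube δ c e ∩ slab k m j) = ENNReal.ofReal (W j) := by
    refine ⟨fun j => (volume (X ∩ tube δ c e ∩ slab k m j)).toReal,
      fun j => ENNReal.toReal_nonneg, ?_⟩
    intro j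
    rw [ENNReal.ofReal_toReal]
    refine ne_top_of_le_ne_top ENNReal.ofReal_ne_top ((measure_mono ?_).trans
      (vol_slab (c := c) hδ h he hm2 j))
    rintro x ⟨⟨-, hx⟩, hx2⟩
    exact ⟨hx, hx2⟩
  have hW1 : ∀ j, W j ≤ w₀ := by
    intro j
    have h1 : volume (X ∩ tube δ c e ∩ slab k m j) ≤ ENNReal.ofReal w₀ := by
      rw [hw₀]
      refine (measure_mono ?_).trans (vol_slab (c := c) hδ h he hm2 j)
      rintro x ⟨⟨-, hx⟩, hx2⟩
      exact ⟨hx, hx2⟩
    rw [hWE, ENNReal.ofReal_le_ofReal_iff hw₀0.le] at h1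
    exact h1
  set J : Finset ℤ := Finset.Icc ⌊(c k - 3 / 2) * 2 ^ m⌋ ⌊(c k + 3 / 2) * 2 ^ m⌋ with hJ
  have hJcard : (J.card : ℝ) ≤ 5 * 2 ^ m := by
    have h1 := card_Icc_floor ((c k - 3 / 2) * 2 ^ m) ((c k + 3 / 2) * 2 ^ m) (by
      apply mul_le_mul_of_nonneg_right _ h2m.le; linarith only [hδ, hδ1])
    have h2 : (1 : ℝ) ≤ 2 ^ m := one_le_pow₀ (by norm_num)
    calc (J.card : ℝ) ≤ (c k + 3 / 2) * 2 ^ m - (c k - 3 / 2) * 2 ^ m + 2 := h1
      _ ≤ 5 * 2 ^ m := by linarith only [h2]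
  have hcover : X ∩ tube δ c e ⊆ ⋃ j ∈ J, (X ∩ tube δ c e ∩ slab k m j) := by
    rintro x ⟨hxX, hx⟩
    simp only [Set.mem_iUnion]
    have h1 := abs_le.mp (height_near (k := k) hδ1 he hx)
    refine ⟨⌊x k * 2 ^ m⌋, ?_, ⟨hxX, hx⟩, rfl⟩
    rw [hJ, Finset.mem_Icc]
    constructor
    · apply Int.floor_le_floor
      apply mul_le_mul_of_nonneg_right _ h2m.le
      linarith only [h1, h1.1]
    · apply Int.floor_le_floor
      apply mul_le_mul_of_nonneg_right _ h2m.le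
      linarith only [h1, h1.2]
  have hsum : lam * δ ^ d ≤ ∑ j ∈ J, W j := by
    have h1 : ENNReal.ofReal (lam * δ ^ d) ≤ ENNReal.ofReal (∑ j ∈ J, W j) := by
      calc ENNReal.ofReal (lam * δ ^ d) ≤ volume (X ∩ tube δ c e) := hX
        _ ≤ volume (⋃ j ∈ J, (X ∩ tube δ c e ∩ slab k m j)) := measure_mono hcover
        _ ≤ ∑ j ∈ J, volume (X ∩ tube δ c e ∩ slab k m j) := measure_biUnion_finset_le _ _
        _ = ENNReal.ofReal (∑ j ∈ J, W j) := by
            rw [ENNReal.ofReal_sum_of_nonneg (fun j _ => hW0 j)]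
            exact Finset.sum_congr rfl fun j _ => hWE j
    rwa [ENNReal.ofReal_le_ofReal_iff (Finset.sum_nonneg fun j _ => hW0 j)] at h1
  -- level
  set Kl : ℕ → Finset ℤ := fun s => J.filter (fun j => w₀ * (1 / 2 : ℝ) ^ (s + 1) < W j ∧
      W j ≤ w₀ * (1 / 2) ^ s) with hKl
  have hsum2 : lam * δ ^ d / 2 ≤ ∑ s ∈ Finset.range S₁, ∑ j ∈ Kl s, W j := by
    have h1 : ∑ j ∈ J, W j ≤ ∑ s ∈ Finset.range S₁, ∑ j ∈ Kl s, W j +
        J.card * (w₀ * (1 / 2) ^ S₁) := by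
      have h2 : ∀ j ∈ J, W j ≤ ∑ s ∈ Finset.range S₁, (if w₀ * (1 / 2 : ℝ) ^ (s + 1) < W j ∧
          W j ≤ w₀ * (1 / 2) ^ s then W j else 0) + w₀ * (1 / 2) ^ S₁ := by
        intro j hj
        rcases le_or_gt (W j) (w₀ * (1 / 2) ^ S₁) with h3 | h3
        · have : 0 ≤ ∑ s ∈ Finset.range S₁, (if w₀ * (1 / 2 : ℝ) ^ (s + 1) < W j ∧
            W j ≤ w₀ * (1 / 2) ^ s then W j else 0) := by
            apply Finset.sum_nonneg
            intro s _
            split_ifs; exacts [hW0 j, le_rfl]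
          linarith only [h3, this]
        · have hwj : 0 < W j / w₀ := div_pos (lt_trans (by positivity) h3) hw₀0
          obtain ⟨s, hs1, hs2⟩ := exists_nat_pow_near_of_lt_one hwj
            ((div_le_one hw₀0).mpr (hW1 j)) (by norm_num : (0 : ℝ) < 1 / 2) (by norm_num)
          rw [lt_div_iff₀ hw₀0, mul_comm] at hs1
          rw [div_le_iff₀ hw₀0, mul_comm] at hs2
          have hsK : s < S₁ := by
            by_contra hcon
            push Not at hcon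
            have : w₀ * (1 / 2 : ℝ) ^ s ≤ w₀ * (1 / 2) ^ S₁ :=
              mul_le_mul_of_nonneg_left
                (pow_le_pow_of_le_one (by norm_num) (by norm_num) hcon) hw₀0.le
            linarith only [h3, hs2, this]
          have h4 : W j ≤ ∑ s ∈ Finset.range S₁, (if w₀ * (1 / 2 : ℝ) ^ (s + 1) < W j ∧
              W j ≤ w₀ * (1 / 2) ^ s then W j else 0) := by
            refine le_trans ?_ (Finset.single_le_sum (f := fun s => if w₀ * (1 / 2 : ℝ) ^ (s + 1) <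
              W j ∧ W j ≤ w₀ * (1 / 2) ^ s then W j else 0) (fun s _ => by
                split_ifs; exacts [hW0 j, le_rfl]) (Finset.mem_range.mpr hsK))
            rw [if_pos ⟨hs1, hs2⟩]
          have : 0 ≤ w₀ * (1 / 2 : ℝ) ^ S₁ := by positivity
          linarith only [h4, this]
      calc ∑ j ∈ J, W j ≤ ∑ j ∈ J, (∑ s ∈ Finset.range S₁, (if w₀ * (1 / 2 : ℝ) ^ (s + 1) < W j ∧
            W j ≤ w₀ * (1 / 2) ^ s then W j else 0) + w₀ * (1 / 2) ^ S₁) := Finset.sum_le_sum h2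
        _ = _ := by
            rw [Finset.sum_add_distrib, Finset.sum_comm, Finset.sum_const, nsmul_eq_mul]
            congr 1
            apply Finset.sum_congr rfl
            intro s _
            rw [hKl, Finset.sum_filter]
    have h3 : (J.card : ℝ) * (w₀ * (1 / 2) ^ S₁) ≤ lam * δ ^ d / 2 := by
      calc (J.card : ℝ) * (w₀ * (1 / 2) ^ S₁) ≤ (5 * 2 ^ m) * (w₀ * (1 / 2) ^ S₁) := by gcongr
        _ = (5 * (Cv d * (1 / 2) ^ S₁)) * (δ * 2 ^ m) * δ ^ d := by rw [hw₀, pow_succ]; ring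
        _ ≤ (lam / 2) * 1 * δ ^ d := by gcongr
        _ = lam * δ ^ d / 2 := by ring
    linarith only [hsum, h1, h3]
  have hS₁r : (0 : ℝ) < S₁ := by exact_mod_cast hS₁
  obtain ⟨s, hs, hs2⟩ : ∃ s ∈ Finset.range S₁, lam * δ ^ d / 2 / S₁ ≤ ∑ j ∈ Kl s, W j := by
    by_contra hcon
    push Not at hcon
    have h1 : ∑ s ∈ Finset.range S₁, ∑ j ∈ Kl s, W j <
        ∑ _s ∈ Finset.range S₁, lam * δ ^ d / 2 / S₁ :=
      Finset.sum_lt_sum_of_nonempty ⟨0, Finset.mem_range.mpr hS₁⟩ hcon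
    rw [Finset.sum_const, Finset.card_range, nsmul_eq_mul, mul_div_cancel₀ _ hS₁r.ne'] at h1
    linarith only [hsum2, h1]
  have hKs : lam * δ ^ d / 2 / S₁ ≤ ((Kl s).card : ℝ) * (w₀ * (1 / 2) ^ s) := by
    refine hs2.trans ?_
    calc ∑ j ∈ Kl s, W j ≤ ∑ _j ∈ Kl s, w₀ * (1 / 2) ^ s :=
          Finset.sum_le_sum (fun j hj => (Finset.mem_filter.1 hj).2.2)
      _ = _ := by rw [Finset.sum_const, nsmul_eq_mul]
  have hKne : (Kl s).Nonempty := by
    rw [Finset.nonempty_iff_ne_empty]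
    intro h0
    rw [h0, Finset.card_empty, Nat.cast_zero, zero_mul] at hKs
    have : 0 < lam * δ ^ d / 2 / S₁ := by positivity
    linarith only [hKs, this]
  -- windows
  have hwin : ((Kl s).image fun x => x / 2 ^ m).card ≤ 8 := by
    apply card_windows (c k)
    intro j hj
    have h1 := (Finset.mem_filter.1 hj).1
    rw [hJ, Finset.mem_Icc] at h1
    have h2 : ((c k - 3 / 2) * 2 ^ m - 1) < j := by
      have := Int.lt_floor_add_one ((c k - 3 / 2) * 2 ^ m)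
      have h3 : ((⌊(c k - 3 / 2) * 2 ^ m⌋ : ℤ) : ℝ) ≤ j := by exact_mod_cast h1.1
      linarith only [this, h3]
    have h3 : (j : ℝ) ≤ (c k + 3 / 2) * 2 ^ m := by
      have := Int.floor_le ((c k + 3 / 2) * 2 ^ m)
      have h3 : (j : ℝ) ≤ ((⌊(c k + 3 / 2) * 2 ^ m⌋ : ℤ) : ℝ) := by exact_mod_cast h1.2
      linarith only [this, h3]
    have h4 : (1 : ℝ) ≤ 2 ^ m := one_le_pow₀ (by norm_num)
    rw [abs_le]
    constructor
    · rw [le_sub_iff_add_le, le_div_iff₀ h2m]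
      nlinarith only [h2, h4]
    · rw [sub_le_iff_le_add, div_le_iff₀ h2m]
      nlinarith only [hδ, hδ1, h3, h4]
  obtain ⟨q, -, hq⟩ : ∃ q ∈ (Kl s).image (fun x => x / 2 ^ m), ((Kl s).card : ℝ) / 8 ≤
      (((Kl s).filter fun x => x / 2 ^ m = q).card : ℝ) := by
    by_contra hcon
    push Not at hcon
    have h1 : ((Kl s).card : ℝ) = ∑ q' ∈ (Kl s).image (fun x => x / 2 ^ m),
        (((Kl s).filter fun x => x / 2 ^ m = q').card : ℝ) := by
      have := Finset.card_eq_sum_card_fiberwise (s := Kl s) (t := (Kl s).image fun x => x / 2 ^ m)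
        (f := fun x => x / 2 ^ m) (fun x hx => Finset.mem_coe.mpr (Finset.mem_image_of_mem _ hx))
      exact_mod_cast this
    have h2 : ∑ q' ∈ (Kl s).image (fun x => x / 2 ^ m),
        (((Kl s).filter fun x => x / 2 ^ m = q').card : ℝ) <
        ∑ _q' ∈ (Kl s).image (fun x => x / 2 ^ m), ((Kl s).card : ℝ) / 8 :=
      Finset.sum_lt_sum_of_nonempty (hKne.image _) hcon
    rw [← h1, Finset.sum_const, nsmul_eq_mul] at h2
    have h3 : ((((Kl s).image fun x => x / 2 ^ m).card : ℕ) : ℝ) ≤ 8 := by exact_mod_cast hwin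
    have h4 : (0 : ℝ) ≤ (Kl s).card := Nat.cast_nonneg _
    nlinarith only [h2, h3]
  set Kf : Finset ℤ := (Kl s).filter fun x => x / 2 ^ m = q with hKf
  set K : Finset ℤ := Kf.image fun x => x - q * 2 ^ m with hKdef
  have hinj : Function.Injective (fun x : ℤ => x - q * 2 ^ m) := fun x y hxy => by
    simpa using hxy
  have hKcard : K.card = Kf.card := Finset.card_image_of_injective _ hinj
  have hKsub : K ⊆ Finset.Ico 0 (2 ^ m : ℤ) := by
    intro x hx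
    obtain ⟨y, hy, rfl⟩ := Finset.mem_image.mp hx
    obtain ⟨h1, h2⟩ := ediv_pow_eq.mp (Finset.mem_filter.1 hy).2
    rw [Finset.mem_Ico]
    constructor
    · linarith only [h1]
    · have : (q + 1) * 2 ^ m = q * 2 ^ m + 2 ^ m := by ring
      linarith only [h2]
  refine ⟨s, Finset.mem_range.mp hs, q, K, hKsub, ?_, ?_⟩
  · intro j hj
    obtain ⟨y, hy, rfl⟩ := Finset.mem_image.mp hj
    have h1 := (Finset.mem_filter.1 (Finset.mem_filter.1 hy).1).2.1
    rw [sub_add_cancel, hWE]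
    exact ENNReal.ofReal_le_ofReal h1.le
  · have h1 : lam * δ ^ d = (lam * δ ^ d / 2 / S₁) * (2 * S₁) := by field_simp
    rw [h1]
    calc (lam * δ ^ d / 2 / S₁) * (2 * S₁) ≤ (((Kl s).card : ℝ) * (w₀ * (1 / 2) ^ s)) * (2 * S₁) := by
          gcongr
      _ ≤ ((8 * (Kf.card : ℝ)) * (w₀ * (1 / 2) ^ s)) * (2 * S₁) := by
          have : ((Kl s).card : ℝ) ≤ 8 * (Kf.card : ℝ) := by linarith only [hq]
          gcongr
      _ = _ := by rw [hKcard]; ring

end Pool.Agent.H53.Dns
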